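import Mathlib

/-!
The profile function `M`: smooth, flat at `0`, with `x M'(x)` nondecreasing on `[0, 4]` and equal
to a tiny constant `S j` on the long interval `[2 X (j + 1), X j]`.
-/

open Real Filter Topology Set MeasureTheory

namespace Pool.Agent.Lib.MP_4d3693_an

/-- The scales. -/
noncomputable def X (i : ℕ) : ℝ := (1 / 2 : ℝ) ^ (i ^ 2)

lemma X_pos (i : ℕ) : 0 < X i := by unfold X; positivity

lemma X_le_one (i : ℕ) : X i ≤ 1 := by
  unfold X
  exact pow_le_one₀ (by norm_num) (by norm_num)

lemma X_zero : X 0 = 1 := by simp [X]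

lemma X_succ (i : ℕ) : X (i + 1) = X i * (1 / 2) ^ (2 * i + 1) := by
  unfold X
  rw [← pow_add]
  congr 1
  ring

lemma X_succ_le (i : ℕ) : 2 * X (i + 1) ≤ X i := by
  rw [X_succ]
  have h1 := X_pos i
  have h2 : (1 / 2 : ℝ) ^ (2 * i + 1) ≤ 1 / 2 := by
    rw [pow_succ]
    have : (1 / 2 : ℝ) ^ (2 * i) ≤ 1 := pow_le_one₀ (by norm_num) (by norm_num)
    linarith
  nlinarith

lemma X_antitone : Antitone X := by
  apply antitone_nat_of_succ_le
  intro i
  have h1 := X_succ_le i
  have h2 := X_pos (i + 1)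
  linarith

lemma X_tendsto : Tendsto X atTop (𝓝 0) := by
  unfold X
  have h1 : Tendsto (fun n : ℕ => (1 / 2 : ℝ) ^ n) atTop (𝓝 0) :=
    tendsto_pow_atTop_nhds_zero_of_lt_one (by norm_num) (by norm_num)
  exact h1.comp (tendsto_pow_atTop (by norm_num))

/-- The building blocks. -/
noncomputable def fI (i : ℕ) (x : ℝ) : ℝ :=
  smoothTransition (x / X i - 1) * smoothTransition (5 - x) / x

lemma step_zero {i : ℕ} {x : ℝ} (hx : x ≤ X i) : smoothTransition (x / X i - 1) = 0 := by
  apply smoothTransition.zero_of_nonpos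
  have : x / X i ≤ 1 := by rw [div_le_one (X_pos i)]; exact hx
  linarith

lemma step_one {i : ℕ} {x : ℝ} (hx : 2 * X i ≤ x) : smoothTransition (x / X i - 1) = 1 := by
  apply smoothTransition.one_of_one_le
  have : 2 ≤ x / X i := by rw [le_div_iff₀ (X_pos i)]; exact hx
  linarith

lemma step_pos {i : ℕ} {x : ℝ} (hx : X i < x) : 0 < smoothTransition (x / X i - 1) := by
  apply smoothTransition.pos_of_pos
  have : 1 < x / X i := by rw [one_lt_div (X_pos i)]; exact hx
  linarith

lemma step_mono (i : ℕ) : Monotone (fun x : ℝ => smoothTransition (x / X i - 1)) := by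
  intro x y hxy
  apply smoothTransition.monotone
  have := X_pos i
  gcongr

lemma fI_zero {i : ℕ} {x : ℝ} (hx : x ≤ X i) : fI i x = 0 := by
  unfold fI
  rw [step_zero hx]
  simp

lemma fI_nonneg (i : ℕ) (x : ℝ) : 0 ≤ fI i x := by
  rcases le_or_gt x (X i) with hx | hx
  · rw [fI_zero hx]
  · have hx0 : 0 < x := (X_pos i).trans hx
    unfold fI
    have h1 := smoothTransition.nonneg (x / X i - 1)
    have h2 := smoothTransition.nonneg (5 - x)
    positivity

lemma fI_le (i : ℕ) (x : ℝ) : fI i x ≤ 1 / X i := by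
  rcases le_or_gt x (X i) with hx | hx
  · rw [fI_zero hx]
    have := X_pos i
    positivity
  · have hx0 : 0 < x := (X_pos i).trans hx
    unfold fI
    have h1 := smoothTransition.nonneg (x / X i - 1)
    have h2 := smoothTransition.nonneg (5 - x)
    have h3 := smoothTransition.le_one (x / X i - 1)
    have h4 := smoothTransition.le_one (5 - x)
    apply div_le_div₀ (by norm_num) _ (X_pos i) hx.le
    nlinarith

lemma fI_eq {i : ℕ} {x : ℝ} (hx : x ≤ 4) :
    fI i x = smoothTransition (x / X i - 1) / x := by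
  unfold fI
  rw [smoothTransition.one_of_one_le (show (1 : ℝ) ≤ 5 - x by linarith), mul_one]

lemma fI_contDiff (i : ℕ) : ContDiff ℝ ((⊤ : ℕ∞) : WithTop ℕ∞) (fI i) := by
  rw [contDiff_iff_contDiffAt]
  intro x
  rcases lt_or_ge x (X i) with hx | hx
  · have : fI i =ᶠ[𝓝 x] fun _ => 0 := by
      filter_upwards [Iio_mem_nhds hx] with y hy
      exact fI_zero (le_of_lt hy)
    exact contDiffAt_const.congr_of_eventuallyEq this
  · have hx0 : x ≠ 0 := ((X_pos i).trans_le hx).ne'
    unfold fI
    apply ContDiffAt.div _ contDiffAt_id hx0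
    apply ContDiffAt.mul
    · exact (smoothTransition.contDiff.comp
        ((contDiff_id.div_const _).sub contDiff_const)).contDiffAt
    · exact (smoothTransition.contDiff.comp (contDiff_const.sub contDiff_id)).contDiffAt

lemma fI_compact (i : ℕ) : HasCompactSupport (fI i) := by
  apply HasCompactSupport.intro (isCompact_Icc (a := X i) (b := 5))
  intro x hx
  rw [mem_Icc, not_and_or] at hx
  rcases hx with hx | hx
  · exact fI_zero (by linarith)
  · unfold fI
    rw [smoothTransition.zero_of_nonpos (show 5 - x ≤ 0 by linarith)]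
    simp

lemma exists_bound (i n : ℕ) : ∃ C : ℝ, ∀ x, ‖iteratedFDeriv ℝ n (fI i) x‖ ≤ C := by
  apply Continuous.bounded_above_of_compact_support
  · apply ContDiff.continuous_iteratedFDeriv _ (fI_contDiff i)
    exact_mod_cast le_top
  · exact (fI_compact i).iteratedFDeriv n

lemma exists_K : ∃ K : ℕ → ℝ, (∀ i, 0 < K i) ∧
    ∀ i n, n ≤ i → ∀ x, ‖iteratedFDeriv ℝ n (fI i) x‖ ≤ K i := by
  choose C hC using exists_bound
  refine ⟨fun i => 1 + ∑ n ∈ Finset.range (i + 1), |C i n|, fun i => by positivity, ?_⟩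
  intro i n hn x
  have h1 : |C i n| ≤ ∑ n ∈ Finset.range (i + 1), |C i n| :=
    Finset.single_le_sum (f := fun n => |C i n|) (fun _ _ => abs_nonneg _)
      (Finset.mem_range.mpr (by omega))
  have h2 := hC i n x
  have h3 := le_abs_self (C i n)
  linarith

/-- A choice of bounds for the derivatives of the building blocks. -/
noncomputable def K : ℕ → ℝ := exists_K.choose

lemma K_pos (i : ℕ) : 0 < K i := exists_K.choose_spec.1 i

lemma K_bound {i n : ℕ} (h : n ≤ i) (x : ℝ) : ‖iteratedFDeriv ℝ n (fI i) x‖ ≤ K i :=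
  exists_K.choose_spec.2 i n h x

/-- The coefficients. -/
noncomputable def a : ℕ → ℝ
  | 0 => 4
  | (i + 1) => min ((1 / 2) ^ (i + 1) / K (i + 1)) (a i * X (i + 1) * (1 / 2) ^ (i + 1))

lemma a_pos (i : ℕ) : 0 < a i := by
  induction i with
  | zero => simp [a]
  | succ n ih =>
    rw [a]
    apply lt_min
    · have := K_pos (n + 1)
      positivity
    · have := X_pos (n + 1)
      positivity

lemma a_succ_le (i : ℕ) : a (i + 1) ≤ a i * X (i + 1) * (1 / 2) ^ (i + 1) := by
  rw [a]; exact min_le_right _ _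

lemma a_K (i : ℕ) : a (i + 1) * K (i + 1) ≤ (1 / 2) ^ (i + 1) := by
  have h : a (i + 1) ≤ (1 / 2) ^ (i + 1) / K (i + 1) := by rw [a]; exact min_le_left _ _
  rwa [le_div_iff₀ (K_pos _)] at h

lemma half_pow_le (i : ℕ) : (1 / 2 : ℝ) ^ (i + 1) ≤ 1 / 2 := by
  rw [pow_succ]
  have : (1 / 2 : ℝ) ^ i ≤ 1 := pow_le_one₀ (by norm_num) (by norm_num)
  linarith

lemma a_succ_le_half (i : ℕ) : a (i + 1) ≤ a i * (1 / 2) := by
  refine (a_succ_le i).trans ?_
  have h1 := a_pos i
  have h2 := X_le_one (i + 1)
  have h3 := X_pos (i + 1)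
  have h4 := half_pow_le i
  have h5 : a i * X (i + 1) ≤ a i := by nlinarith
  have h6 : (0 : ℝ) ≤ (1 / 2) ^ (i + 1) := by positivity
  calc a i * X (i + 1) * (1 / 2) ^ (i + 1) ≤ a i * (1 / 2) ^ (i + 1) :=
        mul_le_mul_of_nonneg_right h5 h6
    _ ≤ a i * (1 / 2) := mul_le_mul_of_nonneg_left h4 h1.le

lemma a_add_le (i l : ℕ) : a (i + l) ≤ a i * (1 / 2) ^ l := by
  induction l with
  | zero => simp
  | succ n ih =>
    calc a (i + (n + 1)) = a ((i + n) + 1) := by ring_nf
      _ ≤ a (i + n) * (1 / 2) := a_succ_le_half _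
      _ ≤ a i * (1 / 2) ^ n * (1 / 2) := by linarith
      _ = a i * (1 / 2) ^ (n + 1) := by ring

lemma summable_half : Summable (fun l : ℕ => (1 / 2 : ℝ) ^ l) := summable_geometric_two

lemma a_summable_shift (i : ℕ) : Summable (fun l => a (i + l)) :=
  Summable.of_nonneg_of_le (fun l => (a_pos _).le) (a_add_le i) (summable_half.mul_left _)

lemma a_summable : Summable a := by
  simpa using a_summable_shift 0

/-- The tails of the series of coefficients. -/
noncomputable def S (j : ℕ) : ℝ := ∑' l, a (j + 1 + l)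

lemma S_pos (j : ℕ) : 0 < S j :=
  (a_summable_shift (j + 1)).tsum_pos (fun l => (a_pos _).le) 0 (a_pos _)

lemma S_le (j : ℕ) : S j ≤ 2 * a (j + 1) := by
  unfold S
  calc ∑' l, a (j + 1 + l) ≤ ∑' l : ℕ, a (j + 1) * (1 / 2 : ℝ) ^ l :=
        (a_summable_shift (j + 1)).tsum_le_tsum (a_add_le _) (summable_half.mul_left _)
    _ = 2 * a (j + 1) := by
        rw [tsum_mul_left, tsum_geometric_two]; ring

/-- The slope function. -/
noncomputable def s (x : ℝ) : ℝ := ∑' i, a i * smoothTransition (x / X i - 1)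

lemma s_summable (x : ℝ) : Summable (fun i => a i * smoothTransition (x / X i - 1)) := by
  apply Summable.of_nonneg_of_le _ _ a_summable
  · intro i
    exact mul_nonneg (a_pos i).le (smoothTransition.nonneg _)
  · intro i
    exact mul_le_of_le_one_right (a_pos i).le (smoothTransition.le_one _)

lemma s_mono : Monotone s := by
  intro x y hxy
  apply (s_summable x).tsum_le_tsum _ (s_summable y)
  intro i
  exact mul_le_mul_of_nonneg_left (step_mono i hxy) (a_pos i).le

lemma s_ge (i : ℕ) (x : ℝ) : a i * smoothTransition (x / X i - 1) ≤ s x :=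
  (s_summable x).le_tsum i (fun j _ => mul_nonneg (a_pos j).le (smoothTransition.nonneg _))

lemma s_pos {x : ℝ} (hx : 0 < x) : 0 < s x := by
  obtain ⟨i, hi⟩ := ((tendsto_order.mp X_tendsto).2 x hx).exists
  exact lt_of_lt_of_le (mul_pos (a_pos i) (step_pos hi)) (s_ge i x)

lemma s_plateau {j : ℕ} {x : ℝ} (h1 : 2 * X (j + 1) ≤ x) (h2 : x ≤ X j) : s x = S j := by
  unfold s S
  rw [← (s_summable x).sum_add_tsum_nat_add (j + 1)]
  have h3 : ∑ i ∈ Finset.range (j + 1), a i * smoothTransition (x / X i - 1) = 0 := by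
    apply Finset.sum_eq_zero
    intro i hi
    rw [step_zero (h2.trans (X_antitone (by rw [Finset.mem_range] at hi; omega))), mul_zero]
  rw [h3, zero_add]
  congr 1
  funext l
  have hle : X (l + (j + 1)) ≤ X (j + 1) := X_antitone (by omega)
  rw [step_one (by linarith), mul_one]
  congr 1
  omega

lemma s_le_S {j : ℕ} {x : ℝ} (h2 : x ≤ X j) : s x ≤ S j := by
  have h := s_mono (h2 : x ≤ X j)
  rwa [s_plateau (X_succ_le j) le_rfl] at h

/-- The derivative of the profile. -/
noncomputable def m (x : ℝ) : ℝ := ∑' i, a i * fI i x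

lemma m_contDiff : ContDiff ℝ ((⊤ : ℕ∞) : WithTop ℕ∞) m := by
  unfold m
  apply contDiff_tsum_of_eventually (v := fun _ i => (1 / 2 : ℝ) ^ i)
  · intro i
    exact contDiff_const.mul (fI_contDiff i)
  · intro k _
    exact summable_half
  · intro k _
    rw [Nat.cofinite_eq_atTop]
    filter_upwards [eventually_ge_atTop (k + 1)] with i hi x
    obtain ⟨n, rfl⟩ : ∃ n, i = n + 1 := ⟨i - 1, by omega⟩
    have h1 : iteratedFDeriv ℝ k (fun y => a (n + 1) * fI (n + 1) y) x =
        a (n + 1) • iteratedFDeriv ℝ k (fI (n + 1)) x := by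
      have := iteratedFDeriv_const_smul_apply (𝕜 := ℝ) (a := a (n + 1)) (i := k)
        (f := fI (n + 1)) (x := x) (((fI_contDiff (n + 1)).of_le (by exact_mod_cast le_top)).contDiffAt)
      exact this
    rw [h1, norm_smul, Real.norm_eq_abs, abs_of_pos (a_pos _)]
    calc a (n + 1) * ‖iteratedFDeriv ℝ k (fI (n + 1)) x‖ ≤ a (n + 1) * K (n + 1) :=
          mul_le_mul_of_nonneg_left (K_bound (by omega) x) (a_pos _).le
      _ ≤ (1 / 2) ^ (n + 1) := a_K n

lemma m_summable (x : ℝ) : Summable (fun i => a i * fI i x) := by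
  rw [← summable_nat_add_iff 1]
  apply Summable.of_nonneg_of_le _ _ a_summable
  · intro i
    exact mul_nonneg (a_pos _).le (fI_nonneg _ _)
  · intro i
    calc a (i + 1) * fI (i + 1) x ≤ (a i * X (i + 1) * (1 / 2) ^ (i + 1)) * (1 / X (i + 1)) :=
          mul_le_mul (a_succ_le i) (fI_le _ _) (fI_nonneg _ _) (by
            have := a_pos i
            have := X_pos (i + 1)
            positivity)
      _ = a i * (1 / 2) ^ (i + 1) := by
          have := (X_pos (i + 1)).ne'
          field_simp
      _ ≤ a i := by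
          have h1 := half_pow_le i
          have h2 := a_pos i
          nlinarith

lemma m_nonneg (x : ℝ) : 0 ≤ m x :=
  tsum_nonneg (fun i => mul_nonneg (a_pos i).le (fI_nonneg i x))

lemma m_eq {x : ℝ} (hx : x ≤ 4) : m x = s x / x := by
  unfold m s
  rw [← tsum_div_const]
  congr 1
  funext i
  rw [fI_eq hx, mul_div_assoc]

lemma m_zero {x : ℝ} (hx : x ≤ 0) : m x = 0 := by
  unfold m
  convert tsum_zero with i
  rw [fI_zero (hx.trans (X_pos i).le), mul_zero]

lemma m_pos {x : ℝ} (h0 : 0 < x) (h4 : x ≤ 4) : 0 < m x := by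
  rw [m_eq h4]
  exact div_pos (s_pos h0) h0

/-- Crude bound for `m` below the scale `X (j + 1)`. -/
lemma m_le {j : ℕ} {x : ℝ} (hx : x ≤ X (j + 1)) : m x ≤ S j := by
  unfold m S
  rw [← (m_summable x).sum_add_tsum_nat_add (j + 2)]
  have h3 : ∑ i ∈ Finset.range (j + 2), a i * fI i x = 0 := by
    apply Finset.sum_eq_zero
    intro i hi
    rw [fI_zero (hx.trans (X_antitone (by rw [Finset.mem_range] at hi; omega))), mul_zero]
  rw [h3, zero_add]
  apply ((summable_nat_add_iff (j + 2)).mpr (m_summable x)).tsum_le_tsum _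
    (a_summable_shift (j + 1))
  intro l
  have e1 : l + (j + 2) = (j + 1 + l) + 1 := by omega
  rw [e1]
  calc a (j + 1 + l + 1) * fI (j + 1 + l + 1) x
      ≤ (a (j + 1 + l) * X (j + 1 + l + 1) * (1 / 2) ^ (j + 1 + l + 1)) *
          (1 / X (j + 1 + l + 1)) :=
        mul_le_mul (a_succ_le _) (fI_le _ _) (fI_nonneg _ _) (by
          have := a_pos (j + 1 + l)
          have := X_pos (j + 1 + l + 1)
          positivity)
    _ = a (j + 1 + l) * (1 / 2) ^ (j + 1 + l + 1) := by
        have := (X_pos (j + 1 + l + 1)).ne'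
        field_simp
    _ ≤ a (j + 1 + l) := by
        have h1 := half_pow_le (j + 1 + l)
        have h2 := a_pos (j + 1 + l)
        nlinarith

/-- The profile. -/
noncomputable def M (x : ℝ) : ℝ := ∫ t in (0 : ℝ)..x, m t

lemma m_continuous : Continuous m := m_contDiff.continuous

lemma M_hasDerivAt (x : ℝ) : HasDerivAt M (m x) x :=
  intervalIntegral.integral_hasDerivAt_right (m_continuous.intervalIntegrable _ _)
    m_continuous.aestronglyMeasurable.stronglyMeasurableAtFilter m_continuous.continuousAt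

lemma M_deriv : deriv M = m := by
  funext x
  exact (M_hasDerivAt x).deriv

lemma M_contDiff : ContDiff ℝ ((⊤ : ℕ∞) : WithTop ℕ∞) M := by
  rw [contDiff_infty_iff_deriv]
  refine ⟨fun x => (M_hasDerivAt x).differentiableAt, ?_⟩
  rw [M_deriv]
  exact m_contDiff

lemma M_sub (x y : ℝ) : M y - M x = ∫ t in x..y, m t := by
  unfold M
  rw [intervalIntegral.integral_interval_sub_left (m_continuous.intervalIntegrable _ _)
    (m_continuous.intervalIntegrable _ _)]

lemma M_mono : Monotone M :=
  monotone_of_deriv_nonneg (fun x => (M_hasDerivAt x).differentiableAt) (by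
    intro x
    rw [M_deriv]
    exact m_nonneg x)

lemma M_zero : M 0 = 0 := by simp [M]

lemma M_nonneg {x : ℝ} (hx : 0 ≤ x) : 0 ≤ M x := by
  rw [← M_zero]
  exact M_mono hx

/-- On the plateau `M` is a logarithm. -/
lemma M_plateau {j : ℕ} {x : ℝ} (h1 : 2 * X (j + 1) ≤ x) (h2 : x ≤ X j) :
    M x = M (2 * X (j + 1)) + S j * log (x / (2 * X (j + 1))) := by
  have hX := X_pos (j + 1)
  have hXj := X_le_one j
  have h3 : M x - M (2 * X (j + 1)) = S j * log (x / (2 * X (j + 1))) := by
    rw [M_sub, ← integral_inv_of_pos (by linarith) (by linarith),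
      ← intervalIntegral.integral_const_mul]
    apply intervalIntegral.integral_congr
    intro y hy
    rw [uIcc_of_le h1] at hy
    show m y = S j * y⁻¹
    rw [m_eq (by linarith [hy.2]), s_plateau hy.1 (hy.2.trans h2), div_eq_mul_inv]
  linarith

lemma M_start (j : ℕ) : M (2 * X (j + 1)) ≤ 2 * S j := by
  have hX := X_pos (j + 1)
  have hX1 := X_le_one (j + 1)
  have hXj := X_succ_le j
  have hXj1 := X_le_one j
  have hS := S_pos j
  have h1 : M (X (j + 1)) ≤ S j := by
    have h2 : M (X (j + 1)) - M 0 ≤ ∫ _t in (0 : ℝ)..(X (j + 1)), S j := by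
      rw [M_sub]
      apply intervalIntegral.integral_mono_on hX.le (m_continuous.intervalIntegrable _ _)
        (continuous_const.intervalIntegrable _ _)
      intro y hy
      exact m_le hy.2
    rw [M_zero, intervalIntegral.integral_const, smul_eq_mul] at h2
    nlinarith
  have h3 : M (2 * X (j + 1)) - M (X (j + 1)) ≤ S j := by
    have h4 : M (2 * X (j + 1)) - M (X (j + 1)) ≤
        ∫ _t in (X (j + 1))..(2 * X (j + 1)), S j / X (j + 1) := by
      rw [M_sub]
      apply intervalIntegral.integral_mono_on (by linarith) (m_continuous.intervalIntegrable _ _)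
        (continuous_const.intervalIntegrable _ _)
      intro y hy
      rw [m_eq (by linarith [hy.2])]
      exact div_le_div₀ hS.le (s_le_S (hy.2.trans hXj)) hX hy.1
    rw [intervalIntegral.integral_const, smul_eq_mul] at h4
    have h5 : (2 * X (j + 1) - X (j + 1)) * (S j / X (j + 1)) = S j := by
      have := hX.ne'
      field_simp
      ring
    linarith
  linarith

/-- Growth of `M` above the scale `2 X j`. -/
lemma M_outer {j : ℕ} {x : ℝ} (h1 : 2 * X j ≤ x) (h2 : x ≤ 4) :
    M (X j) + a j * log (x / (2 * X j)) ≤ M x := by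
  have hX := X_pos j
  have h3 : a j * log (x / (2 * X j)) ≤ M x - M (2 * X j) := by
    rw [M_sub, ← integral_inv_of_pos (by linarith) (by linarith),
      ← intervalIntegral.integral_const_mul]
    apply intervalIntegral.integral_mono_on h1
    · apply ContinuousOn.intervalIntegrable
      apply continuousOn_const.mul
      apply continuousOn_id.inv₀
      intro y hy
      rw [uIcc_of_le h1] at hy
      have : 0 < y := by linarith [hy.1]
      exact this.ne'
    · exact m_continuous.intervalIntegrable _ _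
    · intro y hy
      have hy0 : 0 < y := by linarith [hy.1]
      rw [m_eq (by linarith [hy.2]), div_eq_mul_inv]
      apply mul_le_mul_of_nonneg_right _ (by positivity)
      have := s_ge j y
      rwa [step_one hy.1, mul_one] at this
  have h4 : M (X j) ≤ M (2 * X j) := M_mono (by linarith)
  linarith

lemma M_three : 1 < M 3 := by
  have h := M_outer (j := 0) (x := 3) (by rw [X_zero]; norm_num) (by norm_num)
  rw [X_zero] at h
  have h0 := M_nonneg (show (0 : ℝ) ≤ 1 by norm_num)
  have ha : a 0 = 4 := by simp [a]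
  rw [ha] at h
  have hlog : 1 - ((3 : ℝ) / (2 * 1))⁻¹ ≤ log (3 / (2 * 1)) :=
    one_sub_inv_le_log_of_pos (by norm_num)
  norm_num at hlog h
  linarith

/-- The Levi condition of the profile. -/
lemma M_levi {x : ℝ} (h0 : 0 ≤ x) (h4 : x < 4) : 0 ≤ x * deriv (deriv M) x + deriv M x := by
  rw [M_deriv]
  rcases h0.eq_or_lt with rfl | h0
  · rw [zero_mul, zero_add]
    exact m_nonneg 0
  · have hd : HasDerivAt (fun y => y * m y) (1 * m x + x * deriv m x) x := by
      apply (hasDerivAt_id x).mul
      exact (m_contDiff.differentiable (by simp) x).hasDerivAt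
    have heq : s =ᶠ[𝓝 x] fun y => y * m y := by
      filter_upwards [Ioo_mem_nhds h0 h4] with y hy
      rw [m_eq hy.2.le]
      have := hy.1.ne'
      field_simp
    have hd' : HasDerivAt s (1 * m x + x * deriv m x) x := hd.congr_of_eventuallyEq heq
    have := s_mono.deriv_nonneg (x := x)
    rw [hd'.deriv] at this
    linarith

lemma M_deriv_pos {x : ℝ} (h : M x = 1) : 0 < x ∧ x < 3 ∧ 0 < deriv M x := by
  have h0 : 0 < x := by
    by_contra hx
    push Not at hx
    have := M_mono hx
    rw [M_zero, h] at this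
    linarith
  have h3 : x < 3 := by
    by_contra hx
    push Not at hx
    have := M_mono hx
    have := M_three
    linarith
  refine ⟨h0, h3, ?_⟩
  rw [M_deriv]
  exact m_pos h0 (by linarith)

end Pool.Agent.Lib.MP_4d3693_an
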