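import Mathlib
import Pool.Agent.Lib.MP_4d3693_an.Profile

/-!
The domain `|w|^2 + M(|z|^2) < 1` in `ℂ^2`: smoothness, boundedness, connectedness and
pseudoconvexity.
-/

open Real Filter Topology Set MeasureTheory

namespace Pool.Agent.Lib.MP_4d3693_an

/-- The defining function. -/
noncomputable def rho (p : Fin 2 → ℂ) : ℝ := ‖p 1‖ ^ 2 + M (‖p 0‖ ^ 2) - 1

/-- The domain. -/
def Om : Set (Fin 2 → ℂ) := {p | rho p < 0}

lemma rho_contDiff : ContDiff ℝ ((⊤ : ℕ∞) : WithTop ℕ∞) rho := by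
  unfold rho
  apply ContDiff.sub _ contDiff_const
  apply ContDiff.add
  · exact ContDiff.norm_sq ℝ (contDiff_apply ℝ ℂ 1)
  · exact M_contDiff.comp (ContDiff.norm_sq ℝ (contDiff_apply ℝ ℂ 0))

lemma rho_fderiv (q w : Fin 2 → ℂ) : fderiv ℝ rho q w =
    2 * inner ℝ (q 1) (w 1) + m (‖q 0‖ ^ 2) * (2 * inner ℝ (q 0) (w 0)) := by
  have h : ∀ i : Fin 2, HasFDerivAt (fun q : Fin 2 → ℂ => ‖q i‖ ^ 2)
      (2 • (innerSL ℝ (q i)).comp (ContinuousLinearMap.proj i : (Fin 2 → ℂ) →L[ℝ] ℂ)) q := by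
    intro i
    exact (ContinuousLinearMap.proj i : (Fin 2 → ℂ) →L[ℝ] ℂ).hasFDerivAt.norm_sq
  have h2 : HasFDerivAt rho
      ((2 • (innerSL ℝ (q 1)).comp (ContinuousLinearMap.proj 1 : (Fin 2 → ℂ) →L[ℝ] ℂ)) +
      m (‖q 0‖ ^ 2) • (2 • (innerSL ℝ (q 0)).comp
        (ContinuousLinearMap.proj 0 : (Fin 2 → ℂ) →L[ℝ] ℂ))) q := by
    have h3 := (h 1).add ((M_hasDerivAt (‖q 0‖ ^ 2)).comp_hasFDerivAt q (h 0))
    exact h3.sub_const 1
  rw [h2.fderiv]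
  simp
  ring

lemma rho_fderiv2 (p w : Fin 2 → ℂ) : fderiv ℝ (fderiv ℝ rho) p w w =
    2 * ‖w 1‖ ^ 2 + (deriv m (‖p 0‖ ^ 2) * (2 * inner ℝ (p 0) (w 0)) ^ 2
      + m (‖p 0‖ ^ 2) * (2 * ‖w 0‖ ^ 2)) := by
  have hline : HasDerivAt (fun t : ℝ => p + t • w) w 0 := by
    have := ((hasDerivAt_id (0 : ℝ)).smul_const w).const_add p
    simpa using this
  have hcoord : ∀ i : Fin 2, HasDerivAt (fun t : ℝ => (p + t • w) i) (w i) 0 := by
    intro i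
    exact (hasDerivAt_pi.mp hline) i
  -- left-hand side
  have h1 : HasDerivAt (fun t : ℝ => fderiv ℝ rho (p + t • w) w)
      (fderiv ℝ (fderiv ℝ rho) p w w) 0 := by
    have hd : DifferentiableAt ℝ (fderiv ℝ rho) (p + (0 : ℝ) • w) := by
      have : ContDiff ℝ 1 (fderiv ℝ rho) := rho_contDiff.fderiv_right (by norm_cast)
      exact this.differentiable (by norm_num) _
    have h2 := hd.hasFDerivAt.comp_hasDerivAt (0 : ℝ) hline
    have h3 := h2.clm_apply (hasDerivAt_const (0 : ℝ) w)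
    simpa using h3
  -- right-hand side
  have hinner : ∀ i : Fin 2, HasDerivAt (fun t : ℝ => inner ℝ ((p + t • w) i) (w i))
      (‖w i‖ ^ 2) 0 := by
    intro i
    have := (hcoord i).inner ℝ (hasDerivAt_const (0 : ℝ) (w i))
    simpa using this
  have hnorm : HasDerivAt (fun t : ℝ => ‖(p + t • w) 0‖ ^ 2) (2 * inner ℝ (p 0) (w 0)) 0 := by
    have := (hcoord 0).norm_sq
    simpa using this
  have hm : HasDerivAt (fun t : ℝ => m (‖(p + t • w) 0‖ ^ 2))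
      (deriv m (‖p 0‖ ^ 2) * (2 * inner ℝ (p 0) (w 0))) 0 := by
    have hdm : HasDerivAt m (deriv m (‖p 0‖ ^ 2)) (‖(p + (0 : ℝ) • w) 0‖ ^ 2) := by
      simp only [zero_smul, add_zero]
      exact (m_contDiff.differentiable (by simp) _).hasDerivAt
    exact hdm.comp (0 : ℝ) hnorm
  have h4 : HasDerivAt (fun t : ℝ => fderiv ℝ rho (p + t • w) w)
      (2 * ‖w 1‖ ^ 2 + (deriv m (‖p 0‖ ^ 2) * (2 * inner ℝ (p 0) (w 0)) *
        (2 * inner ℝ (p 0) (w 0)) + m (‖p 0‖ ^ 2) * (2 * ‖w 0‖ ^ 2))) 0 := by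
    have h5 := ((hinner 1).const_mul 2).add (hm.mul ((hinner 0).const_mul 2))
    have h6 : (fun t : ℝ => fderiv ℝ rho (p + t • w) w) = fun t : ℝ =>
        2 * inner ℝ ((p + t • w) 1) (w 1) + m (‖(p + t • w) 0‖ ^ 2) *
          (2 * inner ℝ ((p + t • w) 0) (w 0)) := by
      funext t
      exact rho_fderiv _ _
    rw [h6]
    have h0 : p + (0 : ℝ) • w = p := by simp
    rw [h0] at h5
    exact h5
  rw [h1.unique h4]
  ring

lemma lt_three_of_rho {p : Fin 2 → ℂ} (h : rho p ≤ 0) : ‖p 0‖ ^ 2 < 3 ∧ ‖p 1‖ ^ 2 ≤ 1 := by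
  unfold rho at h
  have h0 : 0 ≤ ‖p 0‖ ^ 2 := by positivity
  have h1 : 0 ≤ ‖p 1‖ ^ 2 := by positivity
  have h2 := M_nonneg h0
  refine ⟨?_, by linarith⟩
  by_contra hcon
  push Not at hcon
  have := M_mono hcon
  have := M_three
  linarith

lemma rho_regular (p : Fin 2 → ℂ) (h : rho p = 0) : fderiv ℝ rho p ≠ 0 := by
  intro h0
  have h1 := rho_fderiv p p
  rw [h0, zero_apply, real_inner_self_eq_norm_sq,
    real_inner_self_eq_norm_sq] at h1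
  have h2 : 0 ≤ ‖p 1‖ ^ 2 := by positivity
  have h3 : 0 ≤ ‖p 0‖ ^ 2 := by positivity
  have h4 := m_nonneg (‖p 0‖ ^ 2)
  have h5 : 0 ≤ m (‖p 0‖ ^ 2) * (2 * ‖p 0‖ ^ 2) := by positivity
  have h6 : ‖p 1‖ ^ 2 = 0 := by linarith
  have h7 : M (‖p 0‖ ^ 2) = 1 := by
    unfold rho at h
    linarith
  obtain ⟨h8, -, h9⟩ := M_deriv_pos h7
  rw [M_deriv] at h9
  have : 0 < m (‖p 0‖ ^ 2) * (2 * ‖p 0‖ ^ 2) := by positivity
  linarith

lemma rho_levi (p : Fin 2 → ℂ) (h : rho p = 0) (w : Fin 2 → ℂ) :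
    0 ≤ fderiv ℝ (fderiv ℝ rho) p w w +
      fderiv ℝ (fderiv ℝ rho) p (Complex.I • w) (Complex.I • w) := by
  rw [rho_fderiv2, rho_fderiv2]
  have hn : ∀ i, ‖(Complex.I • w) i‖ = ‖w i‖ := by
    intro i
    simp
  rw [hn, hn]
  have hinner : (inner ℝ (p 0) (w 0)) ^ 2 + (inner ℝ (p 0) ((Complex.I • w) 0)) ^ 2 =
      ‖p 0‖ ^ 2 * ‖w 0‖ ^ 2 := by
    rw [Complex.sq_norm, Complex.sq_norm, Complex.normSq_apply, Complex.normSq_apply]
    simp only [Complex.inner, Pi.smul_apply, smul_eq_mul, Complex.mul_re, Complex.mul_im,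
      Complex.conj_re, Complex.conj_im, Complex.I_re, Complex.I_im]
    ring
  have hlevi := M_levi (x := ‖p 0‖ ^ 2) (by positivity) (by
    have := (lt_three_of_rho h.le).1
    linarith)
  rw [M_deriv] at hlevi
  have h1 : 0 ≤ ‖w 0‖ ^ 2 := by positivity
  have h2 : 0 ≤ ‖w 1‖ ^ 2 := by positivity
  have h3 : 0 ≤ ‖w 0‖ ^ 2 * (‖p 0‖ ^ 2 * deriv m (‖p 0‖ ^ 2) + m (‖p 0‖ ^ 2)) :=
    mul_nonneg h1 hlevi
  have h4 : deriv m (‖p 0‖ ^ 2) * (2 * inner ℝ (p 0) (w 0)) ^ 2 +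
      deriv m (‖p 0‖ ^ 2) * (2 * inner ℝ (p 0) ((Complex.I • w) 0)) ^ 2 =
      4 * deriv m (‖p 0‖ ^ 2) * (‖p 0‖ ^ 2 * ‖w 0‖ ^ 2) := by
    rw [← hinner]; ring
  nlinarith

lemma Om_bounded : Bornology.IsBounded Om := by
  apply (Metric.isBounded_closedBall (x := (0 : Fin 2 → ℂ)) (r := 2)).subset
  intro p hp
  obtain ⟨h1, h2⟩ := lt_three_of_rho (le_of_lt hp)
  rw [mem_closedBall_zero_iff, pi_norm_le_iff_of_nonneg (by norm_num)]
  intro i
  fin_cases i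
  · show ‖p 0‖ ≤ 2
    nlinarith [norm_nonneg (p 0)]
  · show ‖p 1‖ ≤ 2
    nlinarith [norm_nonneg (p 1)]

lemma Om_open : IsOpen Om := isOpen_lt rho_contDiff.continuous continuous_const

lemma zero_mem_Om : (0 : Fin 2 → ℂ) ∈ Om := by
  show rho 0 < 0
  unfold rho
  simp [M_zero]

lemma Om_connected : IsConnected Om := by
  have hstar : StarConvex ℝ (0 : Fin 2 → ℂ) Om := by
    rw [starConvex_zero_iff]
    intro p hp a ha0 ha1
    have hp' : rho p < 0 := hp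
    show rho (a • p) < 0
    unfold rho at hp' ⊢
    have h1 : ∀ i, ‖(a • p) i‖ ^ 2 ≤ ‖p i‖ ^ 2 := by
      intro i
      rw [Pi.smul_apply, norm_smul, Real.norm_eq_abs, abs_of_nonneg ha0]
      have := norm_nonneg (p i)
      gcongr
      nlinarith
    have h2 := M_mono (h1 0)
    linarith [h1 1]
  exact (hstar.isPathConnected zero_mem_Om).isConnected

end Pool.Agent.Lib.MP_4d3693_an
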