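import Pool.Agent.Lib.MP_4d3693_an.Final

/-!
The case `1 < p < 2` by duality, for the same domain and the same test functions.
-/

open Real Filter Topology Set MeasureTheory

namespace Pool.Agent.Lib.MP_4d3693_an

/-- the failure for `q > 2`, with the test functions displayed. -/
theorem failure_explicit {p : ℝ} (hp : 2 < p) (C : NNReal) :
    ∃ j : ℕ, Good j ∧
      ¬ eLpNorm (gF j) (ENNReal.ofReal p) (volume.restrict Om)
        ≤ (C : ENNReal) * eLpNorm (fF j) (ENNReal.ofReal p) (volume.restrict Om) := by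
  have hC0 : (0 : ℝ) < (C : ℝ) + 1 := by positivity
  obtain ⟨j, hj1, hj⟩ := ((final_real hp hC0).and good_eventually).exists
  refine ⟨j, hj, ?_⟩
  intro hcon
  have hp0 : 0 < p := by linarith
  have hq0 : ENNReal.ofReal p ≠ 0 := by
    rw [Ne, ENNReal.ofReal_eq_zero]
    linarith
  have hq1 : ENNReal.ofReal p ≠ ⊤ := ENNReal.ofReal_ne_top
  rw [eLpNorm_eq_lintegral_rpow_enorm_toReal hq0 hq1,
    eLpNorm_eq_lintegral_rpow_enorm_toReal hq0 hq1, ENNReal.toReal_ofReal hp0.le,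
    norm_fF hj hp, norm_gF hj hp] at hcon
  have hcon2 := ENNReal.rpow_le_rpow hcon hp0.le
  rw [ENNReal.mul_rpow_of_nonneg _ _ hp0.le, ← ENNReal.rpow_mul, ← ENNReal.rpow_mul,
    one_div, inv_mul_cancel₀ hp0.ne', ENNReal.rpow_one, ENNReal.rpow_one] at hcon2
  have hn' : (16 : ℝ) ≤ nn j := by exact_mod_cast nn_large hj
  have hpos : 0 < p * ((nn j : ℝ) - 1) := mul_pos (by linarith) (by linarith)
  have hJ0 := (J_pos hpos).ne'
  have hJ1 := (J_lt_top hpos).ne
  rw [← mul_assoc, ← mul_assoc, ENNReal.mul_le_mul_iff_left hJ0 hJ1] at hcon2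
  have hg := gam_pos j
  have hX := X_pos (j + 1)
  have hXj := X_pos j
  have hpi := Real.pi_pos
  have h1 : ENNReal.ofReal (gam j ^ p * (π * (2 * X (j + 1)) * exp (-(2 * p)))) ≤
      ENNReal.ofReal (((C : ℝ) + 1) ^ p *
        (π * (X j / 2) * exp (-(p / 2 * (2 * j * log 2 - 2))))) := by
    rw [ENNReal.ofReal_mul (show 0 ≤ gam j ^ p by positivity),
      ENNReal.ofReal_mul (show 0 ≤ ((C : ℝ) + 1) ^ p by positivity),
      ← ENNReal.ofReal_rpow_of_pos hg, ← ENNReal.ofReal_rpow_of_pos hC0]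
    calc ENNReal.ofReal (gam j) ^ p * ENNReal.ofReal (π * (2 * X (j + 1)) * exp (-(2 * p)))
        ≤ ENNReal.ofReal (cc j) ^ p * V (p * ((nn j : ℝ) - 1) / 2 + 1) univ := by
          gcongr
          · exact gam_le hj
          · exact V_univ_ge hj hp.le
      _ ≤ (C : ENNReal) ^ p * V (p * ((nn j : ℝ) - 1) / 2 + 1) (Ring j) := hcon2
      _ ≤ ENNReal.ofReal ((C : ℝ) + 1) ^ p *
          ENNReal.ofReal (π * (X j / 2) * exp (-(p / 2 * (2 * j * log 2 - 2)))) := by
          gcongr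
          · rw [← ENNReal.ofReal_coe_nnreal]
            apply ENNReal.ofReal_le_ofReal
            linarith
          · exact V_ring_le hj hp.le
  rw [ENNReal.ofReal_le_ofReal_iff (by positivity)] at h1
  linarith

/-- the function `|g|^(q-2) g` cut off outside the domain. -/
noncomputable def hH (j : ℕ) (q : ℝ) : (Fin 2 → ℂ) → ℂ :=
  fun x => ((‖gF j x‖ ^ (q - 2) : ℝ) : ℂ) * gF j x

noncomputable def mom0 (j : ℕ) : ℝ := ∫ p in Om, ‖p 1‖ ^ (2 * (nn j - 1))

noncomputable def mom1 (j : ℕ) (q : ℝ) : ℝ :=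
  ∫ p in Om, (‖gF j p‖ ^ (q - 2) * cc j) * ‖p 1‖ ^ (2 * (nn j - 1))

noncomputable def kap (j : ℕ) (q : ℝ) : ℝ := mom1 j q / mom0 j

noncomputable def kK (j : ℕ) (q : ℝ) : (Fin 2 → ℂ) → ℂ :=
  fun x => (kap j q : ℂ) * (x 1) ^ (nn j - 1)

noncomputable def Psi2 (j : ℕ) (q : ℝ) : (Fin 2 → ℂ) → ℂ :=
  Om.indicator (fun x => ((‖gF j x‖ ^ (q - 2) * cc j - kap j q : ℝ) : ℂ))

lemma mom0_pos {j : ℕ} (hj : Good j) : 0 < mom0 j := by
  have h2 := moment hj MeasurableSet.univ
  rw [Cyl_univ, inter_univ] at h2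
  unfold mom0
  rw [h2]
  have hn : (16 : ℝ) ≤ nn j := by exact_mod_cast nn_large hj
  have hpos : 0 < 2 * ((nn j : ℝ) - 1) := by linarith
  exact mul_pos (ENNReal.toReal_pos (V_univ_pos hj).ne' (V_univ_lt_top hj).ne)
    (ENNReal.toReal_pos (J_pos hpos).ne' (J_lt_top hpos).ne)

lemma gF_norm_le (j : ℕ) {x : Fin 2 → ℂ} (hx : x ∈ Om) : ‖gF j x‖ ≤ ‖(cc j : ℂ)‖ := by
  unfold gF
  rw [norm_mul, norm_pow]
  exact mul_le_of_le_one_right (norm_nonneg _) (pow_le_one_Om hx _)

lemma weight_continuous (j : ℕ) {q : ℝ} (hq : 2 < q) :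
    Continuous (fun x : Fin 2 → ℂ => ‖gF j x‖ ^ (q - 2)) := by
  refine Continuous.rpow_const (gF_diff j).continuous.norm ?_
  intro x
  exact Or.inr (by linarith)

lemma weight_le (j : ℕ) {q : ℝ} (hq : 2 < q) {x : Fin 2 → ℂ} (hx : x ∈ Om) :
    ‖gF j x‖ ^ (q - 2) ≤ ‖(cc j : ℂ)‖ ^ (q - 2) :=
  Real.rpow_le_rpow (norm_nonneg _) (gF_norm_le j hx) (by linarith)

lemma Psi2_measurable (j : ℕ) {q : ℝ} (hq : 2 < q) : Measurable (Psi2 j q) := by
  unfold Psi2
  refine Measurable.indicator ?_ Om_measurable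
  exact Complex.measurable_ofReal.comp
    ((((weight_continuous j hq).measurable).mul_const _).sub_const _)

lemma Psi2_rot (j : ℕ) (q : ℝ) (u : Fin 2 → ℝ) (p : Fin 2 → ℂ) :
    Psi2 j q (rot u p) = Psi2 j q p := by
  have hmem : rot u p ∈ Om ↔ p ∈ Om := by
    show rho (rot u p) < 0 ↔ rho p < 0
    rw [rot_rho]
  have hg : ‖gF j (rot u p)‖ = ‖gF j p‖ := by
    unfold gF
    rw [norm_mul, norm_mul, norm_pow, norm_pow, rot_norm]
  unfold Psi2
  by_cases hp : p ∈ Om
  · rw [indicator_of_mem hp, indicator_of_mem (hmem.mpr hp), hg]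
  · rw [indicator_of_notMem hp, indicator_of_notMem (fun h' => hp (hmem.mp h'))]

lemma Psi2_bound (j : ℕ) {q : ℝ} (hq : 2 < q) (p : Fin 2 → ℂ) :
    ‖Psi2 j q p‖ ≤ ‖(cc j : ℂ)‖ ^ (q - 2) * |cc j| + |kap j q| := by
  have h0 : 0 ≤ ‖(cc j : ℂ)‖ ^ (q - 2) := Real.rpow_nonneg (norm_nonneg _) _
  unfold Psi2
  by_cases hp : p ∈ Om
  · rw [indicator_of_mem hp, Complex.norm_real, Real.norm_eq_abs]
    refine (abs_sub _ _).trans ?_
    rw [abs_mul, abs_of_nonneg (Real.rpow_nonneg (norm_nonneg _) _)]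
    gcongr
    exact gF_norm_le j hp
  · rw [indicator_of_notMem hp, norm_zero]
    positivity

lemma weight_integrable (j : ℕ) {q : ℝ} (hq : 2 < q) (k : ℕ) :
    IntegrableOn (fun p : Fin 2 → ℂ => (‖gF j p‖ ^ (q - 2) * cc j) * ‖p 1‖ ^ (2 * k)) Om := by
  apply Measure.integrableOn_of_bounded (M := ‖(cc j : ℂ)‖ ^ (q - 2) * |cc j|) Om_volume_lt.ne
  · apply Continuous.aestronglyMeasurable
    exact ((weight_continuous j hq).mul continuous_const).mul (by fun_prop)
  · filter_upwards [ae_restrict_mem Om_measurable] with p hp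
    rw [norm_mul, norm_mul, Real.norm_eq_abs, Real.norm_eq_abs, Real.norm_eq_abs,
      abs_of_nonneg (Real.rpow_nonneg (norm_nonneg (gF j p)) _)]
    have h1 : |‖p 1‖ ^ (2 * k)| ≤ 1 := by
      rw [abs_of_nonneg (by positivity)]
      exact pow_le_one_Om hp _
    have h2 := weight_le j hq hp
    have h3 : 0 ≤ ‖(cc j : ℂ)‖ ^ (q - 2) * |cc j| :=
      mul_nonneg (Real.rpow_nonneg (norm_nonneg _) _) (abs_nonneg _)
    calc ‖gF j p‖ ^ (q - 2) * |cc j| * |‖p 1‖ ^ (2 * k)|
        ≤ (‖(cc j : ℂ)‖ ^ (q - 2) * |cc j|) * 1 := by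
          apply mul_le_mul _ h1 (abs_nonneg _) h3
          gcongr
      _ = _ := mul_one _

lemma mom0_integrable (k : ℕ) : IntegrableOn (fun p : Fin 2 → ℂ => ‖p 1‖ ^ (2 * k)) Om := by
  apply Measure.integrableOn_of_bounded (M := 1) Om_volume_lt.ne
  · apply Continuous.aestronglyMeasurable
    fun_prop
  · filter_upwards [ae_restrict_mem Om_measurable] with p hp
    rw [Real.norm_eq_abs, abs_of_nonneg (by positivity)]
    exact pow_le_one_Om hp _

lemma Psi2_moment {j : ℕ} (hj : Good j) {q : ℝ} (hq : 2 < q) :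
    ∫ p in Om, Psi2 j q p * ((‖p 1‖ ^ (2 * (nn j - 1)) : ℝ) : ℂ) = 0 := by
  have h1 : ∫ p in Om, Psi2 j q p * ((‖p 1‖ ^ (2 * (nn j - 1)) : ℝ) : ℂ) =
      ∫ p in Om, (((‖gF j p‖ ^ (q - 2) * cc j) * ‖p 1‖ ^ (2 * (nn j - 1)) -
        kap j q * ‖p 1‖ ^ (2 * (nn j - 1)) : ℝ) : ℂ) := by
    refine setIntegral_congr_fun Om_measurable ?_
    intro p hp
    simp only [Psi2]
    rw [indicator_of_mem hp, ← Complex.ofReal_mul]
    congr 1
    ring
  rw [h1, integral_complex_ofReal, integral_sub (weight_integrable j hq _)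
    ((mom0_integrable _).const_mul _), integral_const_mul]
  have h2 : mom1 j q - kap j q * mom0 j = 0 := by
    unfold kap
    rw [div_mul_cancel₀ _ (mom0_pos hj).ne', sub_self]
  unfold mom1 mom0 at h2
  rw [h2, Complex.ofReal_zero]

lemma orth2 {j : ℕ} (hj : Good j) {q : ℝ} (hq : 2 < q) {h : (Fin 2 → ℂ) → ℂ}
    (hh : DifferentiableOn ℂ h Om) (hL : MemLp h 2 (volume.restrict Om)) :
    ∫ x in Om, (hH j q x - kK j q x) * starRingEnd ℂ (h x) = 0 := by
  have hk : nn j - 1 ≠ 0 := by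
    have := nn_large hj
    omega
  have h1 := pairing (Psi2_rot j q) (Psi2_measurable j hq) (Psi2_bound j hq) hh hL hk
  rw [Psi2_moment hj hq, mul_zero] at h1
  rw [← h1]
  refine setIntegral_congr_fun Om_measurable ?_
  intro p hp
  simp only [hH, kK, gF, Psi2]
  rw [indicator_of_mem hp]
  push_cast
  ring

lemma hH_memLp (j : ℕ) {q : ℝ} (hq : 2 < q) (r : ENNReal) :
    MemLp (hH j q) r (volume.restrict Om) := by
  apply MemLp.of_bound (C := ‖(cc j : ℂ)‖ ^ (q - 2) * ‖(cc j : ℂ)‖)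
  · exact ((Complex.continuous_ofReal.comp (weight_continuous j hq)).mul
      (gF_diff j).continuous).aestronglyMeasurable
  · filter_upwards [ae_restrict_mem Om_measurable] with p hp
    unfold hH
    rw [norm_mul, Complex.norm_real, Real.norm_eq_abs,
      abs_of_nonneg (Real.rpow_nonneg (norm_nonneg _) _)]
    have := gF_norm_le j hp
    have := weight_le j hq hp
    gcongr

lemma kK_diff (j : ℕ) (q : ℝ) : Differentiable ℂ (kK j q) := by
  unfold kK
  apply Differentiable.const_mul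
  apply Differentiable.pow
  exact differentiable_pi.mp differentiable_id 1

lemma kK_memLp (j : ℕ) (q : ℝ) (r : ENNReal) : MemLp (kK j q) r (volume.restrict Om) := by
  apply MemLp.of_bound (kK_diff j q).continuous.aestronglyMeasurable ‖(kap j q : ℂ)‖
  filter_upwards [ae_restrict_mem Om_measurable] with p hp
  unfold kK
  rw [norm_mul, norm_pow]
  exact mul_le_of_le_one_right (norm_nonneg _) (pow_le_one_Om hp _)

/-- the three lower integrals that occur in the duality. -/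
lemma norm_pow_G (j : ℕ) {p q : ℝ} (hp : 1 < p) (hq : 2 < q) (hpq : p.HolderConjugate q) (x : Fin 2 → ℂ) :
    ‖hH j q x‖ₑ ^ p = ‖gF j x‖ₑ ^ q := by
  have h1 : ‖hH j q x‖ = ‖gF j x‖ ^ (q - 1) := by
    unfold hH
    rw [norm_mul, Complex.norm_real, Real.norm_eq_abs,
      abs_of_nonneg (Real.rpow_nonneg (norm_nonneg _) _)]
    rcases eq_or_lt_of_le (norm_nonneg (gF j x)) with h0 | h0
    · rw [← h0, Real.zero_rpow (by linarith), Real.zero_rpow (by linarith), zero_mul]
    · rw [show q - 1 = (q - 2) + 1 by ring, Real.rpow_add_one h0.ne']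
  rw [← ofReal_norm, ← ofReal_norm, h1,
    ENNReal.ofReal_rpow_of_nonneg (Real.rpow_nonneg (norm_nonneg _) _) (by linarith),
    ENNReal.ofReal_rpow_of_nonneg (norm_nonneg _) (by linarith), ← Real.rpow_mul (norm_nonneg _)]
  have h2 : (q - 1) * p = q := by
    have := hpq.sub_one_mul_conj
    have h3 := hpq.symm.sub_one_mul_conj
    linarith
  rw [h2]

lemma pair_eq {j : ℕ} (hj : Good j) {q : ℝ} (hq : 2 < q) :
    ∫ x in Om, fF j x * starRingEnd ℂ (kK j q x) = ((∫ x in Om, ‖gF j x‖ ^ q : ℝ) : ℂ) := by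
  have hint : ∀ f g : (Fin 2 → ℂ) → ℂ, MemLp f 2 (volume.restrict Om) →
      MemLp g 2 (volume.restrict Om) →
      Integrable (fun x => f x * starRingEnd ℂ (g x)) (volume.restrict Om) := by
    intro f g hf hg
    have hg' : MemLp (fun x => starRingEnd ℂ (g x)) 2 (volume.restrict Om) := by
      refine MemLp.of_le hg (Complex.continuous_conj.comp_aestronglyMeasurable hg.1) ?_
      filter_upwards with x
      rw [Complex.norm_conj]
    exact hf.integrable_mul hg'
  have hf := fF_memLp j 2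
  have hg := gF_memLp j 2
  have hh := hH_memLp j hq 2
  have hk := kK_memLp j q 2
  have h1 := orth hj (kK_diff j q).differentiableOn hk
  have h2 := orth2 hj hq (gF_diff j).differentiableOn hg
  simp_rw [sub_mul] at h1 h2
  rw [integral_sub (hint _ _ hf hk) (hint _ _ hg hk), sub_eq_zero] at h1
  rw [integral_sub (hint _ _ hh hg) (hint _ _ hk hg), sub_eq_zero] at h2
  have h3 : ∫ x in Om, gF j x * starRingEnd ℂ (kK j q x) =
      starRingEnd ℂ (∫ x in Om, kK j q x * starRingEnd ℂ (gF j x)) := by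
    rw [← integral_conj]
    congr 1
    funext x
    rw [map_mul, Complex.conj_conj, mul_comm]
  have h4 : ∫ x in Om, hH j q x * starRingEnd ℂ (gF j x) =
      ((∫ x in Om, ‖gF j x‖ ^ q : ℝ) : ℂ) := by
    rw [← integral_complex_ofReal]
    congr 1
    funext x
    unfold hH
    rw [mul_assoc, Complex.mul_conj, Complex.normSq_eq_norm_sq, ← Complex.ofReal_mul]
    congr 1
    rcases eq_or_lt_of_le (norm_nonneg (gF j x)) with h0 | h0
    · rw [← h0, Real.zero_rpow (by linarith), Real.zero_rpow (by linarith), zero_mul]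
    · rw [← Real.rpow_natCast, ← Real.rpow_add h0]
      congr 1
      push_cast
      ring
  rw [h1, h3, ← h2, h4, Complex.conj_ofReal]

/-- the failure for `1 < p < 2`. -/
theorem failure_low {p : ℝ} (hp : 1 < p) (hp2 : p < 2) (C : NNReal) :
    ∃ f g : (Fin 2 → ℂ) → ℂ,
      MemLp f 2 (volume.restrict Om) ∧
      MemLp f (ENNReal.ofReal p) (volume.restrict Om) ∧
      DifferentiableOn ℂ g Om ∧
      MemLp g 2 (volume.restrict Om) ∧
      (∀ h : (Fin 2 → ℂ) → ℂ, DifferentiableOn ℂ h Om →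
        MemLp h 2 (volume.restrict Om) →
        ∫ x in Om, (f x - g x) * starRingEnd ℂ (h x) = 0) ∧
      ¬ eLpNorm g (ENNReal.ofReal p) (volume.restrict Om)
        ≤ (C : ENNReal) * eLpNorm f (ENNReal.ofReal p) (volume.restrict Om) := by
  have hpq : p.HolderConjugate (p.conjExponent) := Real.HolderConjugate.conjExponent hp
  set q := p.conjExponent with hqdef
  have hq : 2 < q := by
    rw [hqdef, Real.conjExponent, lt_div_iff₀ (by linarith)]
    linarith
  obtain ⟨j, hj, hfail⟩ := failure_explicit hq C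
  refine ⟨hH j q, kK j q, hH_memLp j hq _, hH_memLp j hq _, (kK_diff j q).differentiableOn,
    kK_memLp j q _, fun h hh hL => orth2 hj hq hh hL, ?_⟩
  intro hcon
  apply hfail
  have hp0 : 0 < p := by linarith
  have hq0 : 0 < q := by linarith
  have hP0 : ENNReal.ofReal p ≠ 0 := by rw [Ne, ENNReal.ofReal_eq_zero]; linarith
  have hQ0 : ENNReal.ofReal q ≠ 0 := by rw [Ne, ENNReal.ofReal_eq_zero]; linarith
  have hP1 : ENNReal.ofReal p ≠ ⊤ := ENNReal.ofReal_ne_top
  have hQ1 : ENNReal.ofReal q ≠ ⊤ := ENNReal.ofReal_ne_top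
  set G : ENNReal := ∫⁻ x in Om, ‖gF j x‖ₑ ^ q with hG
  have hgnorm : eLpNorm (gF j) (ENNReal.ofReal q) (volume.restrict Om) = G ^ (1 / q) := by
    rw [eLpNorm_eq_lintegral_rpow_enorm_toReal hQ0 hQ1, ENNReal.toReal_ofReal hq0.le]
  have hhnorm : eLpNorm (hH j q) (ENNReal.ofReal p) (volume.restrict Om) = G ^ (1 / p) := by
    rw [eLpNorm_eq_lintegral_rpow_enorm_toReal hP0 hP1, ENNReal.toReal_ofReal hp0.le]
    simp_rw [norm_pow_G j hp hq hpq]
    rfl
  have hGtop : G ≠ ⊤ := by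
    have h1 := (gF_memLp j (ENNReal.ofReal q)).2
    rw [hgnorm] at h1
    intro h2
    rw [h2, ENNReal.top_rpow_of_pos (by positivity)] at h1
    exact lt_irrefl _ h1
  by_cases hG0 : G = 0
  · rw [hgnorm, hG0, ENNReal.zero_rpow_of_pos (by positivity)]
    exact bot_le
  have hGle : G ≤ eLpNorm (fF j) (ENNReal.ofReal q) (volume.restrict Om) *
      eLpNorm (kK j q) (ENNReal.ofReal p) (volume.restrict Om) := by
    have h1 : G = ‖∫ x in Om, fF j x * starRingEnd ℂ (kK j q x)‖ₑ := by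
      rw [pair_eq hj hq, hG]
      have hInt : ∫ x in Om, ‖gF j x‖ ^ q = (∫⁻ x in Om, ‖gF j x‖ₑ ^ q).toReal := by
        rw [integral_eq_lintegral_of_nonneg_ae]
        · congr 1
          apply lintegral_congr
          intro x
          rw [← ofReal_norm, ENNReal.ofReal_rpow_of_nonneg (norm_nonneg _) hq0.le]
        · filter_upwards with x
          exact Real.rpow_nonneg (norm_nonneg _) _
        · exact (Continuous.rpow_const (gF_diff j).continuous.norm
            (fun x => Or.inr hq0.le)).aestronglyMeasurable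
      rw [hInt, ← ofReal_norm, Complex.norm_real, Real.norm_eq_abs,
        abs_of_nonneg ENNReal.toReal_nonneg, ENNReal.ofReal_toReal hGtop]
    calc G = ‖∫ x in Om, fF j x * starRingEnd ℂ (kK j q x)‖ₑ := h1
      _ ≤ ∫⁻ x in Om, ‖fF j x * starRingEnd ℂ (kK j q x)‖ₑ := enorm_integral_le_lintegral_enorm _
      _ = ∫⁻ x in Om, ‖fF j x‖ₑ * ‖kK j q x‖ₑ := by
          apply lintegral_congr
          intro x
          rw [enorm_mul]
          congr 1
          rw [← ofReal_norm, ← ofReal_norm, Complex.norm_conj]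
      _ ≤ (∫⁻ x in Om, ‖fF j x‖ₑ ^ q) ^ (1 / q) * (∫⁻ x in Om, ‖kK j q x‖ₑ ^ p) ^ (1 / p) :=
          ENNReal.lintegral_mul_le_Lp_mul_Lq (volume.restrict Om) hpq.symm
            (fF_measurable j).enorm.aemeasurable (kK_diff j q).continuous.measurable.enorm.aemeasurable
      _ = _ := by
          rw [eLpNorm_eq_lintegral_rpow_enorm_toReal hQ0 hQ1, ENNReal.toReal_ofReal hq0.le,
            eLpNorm_eq_lintegral_rpow_enorm_toReal hP0 hP1, ENNReal.toReal_ofReal hp0.le]
  rw [hhnorm] at hcon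
  have h5 : G ^ (1 / q) * G ^ (1 / p) ≤
      (C * eLpNorm (fF j) (ENNReal.ofReal q) (volume.restrict Om)) * G ^ (1 / p) := by
    have h6 : G ^ (1 / q) * G ^ (1 / p) = G := by
      rw [← ENNReal.rpow_add _ _ hG0 hGtop]
      have h7 : 1 / q + 1 / p = 1 := by
        rw [one_div, one_div]
        exact hpq.symm.inv_add_inv_eq_one
      rw [h7, ENNReal.rpow_one]
    rw [h6]
    calc G ≤ eLpNorm (fF j) (ENNReal.ofReal q) (volume.restrict Om) *
          eLpNorm (kK j q) (ENNReal.ofReal p) (volume.restrict Om) := hGle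
      _ ≤ eLpNorm (fF j) (ENNReal.ofReal q) (volume.restrict Om) *
          (C * G ^ (1 / p)) := by gcongr
      _ = _ := by ring
  rw [hgnorm]
  have h8 : G ^ (1 / p) ≠ 0 := by
    rw [Ne, ENNReal.rpow_eq_zero_iff]
    push Not
    exact ⟨fun h => absurd h hG0, fun h => absurd h hGtop⟩
  have h9 : G ^ (1 / p) ≠ ⊤ := ENNReal.rpow_ne_top_of_nonneg (by positivity) hGtop
  exact (ENNReal.mul_le_mul_iff_left h8 h9).1 h5

/-- the case `p = 2`: the orthogonal projection is a contraction. -/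
theorem contraction {n : ℕ} (Ω : Set (Fin n → ℂ)) {f g : (Fin n → ℂ) → ℂ}
    (hf : MemLp f 2 (volume.restrict Ω)) (hg : MemLp g 2 (volume.restrict Ω))
    (horth : ∫ x in Ω, (f x - g x) * starRingEnd ℂ (g x) = 0) :
    eLpNorm g 2 (volume.restrict Ω) ≤ eLpNorm f 2 (volume.restrict Ω) := by
  have h1 : inner ℂ (hg.toLp g) ((hf.sub hg).toLp (f - g)) = 0 := by
    rw [MeasureTheory.L2.inner_def, ← horth]
    apply integral_congr_ae
    filter_upwards [hg.coeFn_toLp, (hf.sub hg).coeFn_toLp] with x hx1 hx2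
    rw [hx1, hx2, Pi.sub_apply]
    rfl
  have h2 : ‖hf.toLp f‖ ^ 2 = ‖hg.toLp g‖ ^ 2 + ‖(hf.sub hg).toLp (f - g)‖ ^ 2 := by
    have h3 : hf.toLp f = hg.toLp g + (hf.sub hg).toLp (f - g) := by
      rw [← MemLp.toLp_add]
      congr 1
      funext x
      simp
    rw [h3]
    have := norm_add_sq_eq_norm_sq_add_norm_sq_of_inner_eq_zero (𝕜 := ℂ) _ _ h1
    rw [sq, sq, sq]
    exact this
  have h4 : ‖hg.toLp g‖ ≤ ‖hf.toLp f‖ := by
    have h5 : ‖hg.toLp g‖ ^ 2 ≤ ‖hf.toLp f‖ ^ 2 := by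
      rw [h2]
      have := sq_nonneg ‖(hf.sub hg).toLp (f - g)‖
      linarith
    exact le_of_sq_le_sq h5 (norm_nonneg _)
  rw [Lp.norm_toLp, Lp.norm_toLp] at h4
  exact (ENNReal.toReal_le_toReal hg.2.ne hf.2.ne).1 h4

end Pool.Agent.Lib.MP_4d3693_an
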