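import Mathlib
import Pool.Agent.Lib.MP_4d3693_an.Domain

/-!
Reduction of the integrals over the domain to weighted integrals over the plane.
-/

open Real Filter Topology Set MeasureTheory

namespace Pool.Agent.Lib.MP_4d3693_an

/-- Weighted area. -/
noncomputable def V (s : ℝ) (E : Set ℂ) : ENNReal :=
  ∫⁻ z in E, (ENNReal.ofReal (1 - M (‖z‖ ^ 2))) ^ s

/-- Moments of the unit disc. -/
noncomputable def J (a : ℝ) : ENNReal := ∫⁻ w in Metric.ball (0 : ℂ) 1, ‖w‖ₑ ^ a

/-- The cylinder over `E`. -/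
def Cyl (E : Set ℂ) : Set (Fin 2 → ℂ) := {p | p 0 ∈ E}

lemma J_lt_top {a : ℝ} (ha : 0 < a) : J a < ⊤ := by
  unfold J
  calc ∫⁻ w in Metric.ball (0 : ℂ) 1, ‖w‖ₑ ^ a
      ≤ ∫⁻ _w in Metric.ball (0 : ℂ) 1, 1 := by
        apply setLIntegral_mono measurable_const
        intro w hw
        rw [mem_ball_zero_iff] at hw
        have h1 : ‖w‖ₑ ≤ 1 := by
          rw [← ofReal_norm, ← ENNReal.ofReal_one]
          exact ENNReal.ofReal_le_ofReal hw.le
        exact ENNReal.rpow_le_one h1 ha.le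
    _ < ⊤ := by
        rw [setLIntegral_const, one_mul]
        exact measure_ball_lt_top

lemma J_pos {a : ℝ} (ha : 0 < a) : 0 < J a := by
  unfold J
  rw [← lintegral_indicator Metric.isOpen_ball.measurableSet]
  rw [lintegral_pos_iff_support]
  · have h1 : (0 : ENNReal) < volume (Metric.ball (0 : ℂ) 1 \ {0}) := by
      apply IsOpen.measure_pos
      · exact Metric.isOpen_ball.sdiff isClosed_singleton
      · refine ⟨1 / 2, ?_, ?_⟩
        · rw [mem_ball_zero_iff]
          norm_num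
        · norm_num
    apply h1.trans_le
    apply measure_mono
    intro w hw
    rw [Function.mem_support, indicator_of_mem hw.1]
    have h2 : ‖w‖ₑ ≠ 0 := by
      rw [enorm_ne_zero]
      exact hw.2
    have h3 : ‖w‖ₑ ≠ ⊤ := enorm_ne_top
    exact (ENNReal.rpow_pos (pos_iff_ne_zero.mpr h2) h3).ne'
  · apply Measurable.indicator _ Metric.isOpen_ball.measurableSet
    fun_prop

lemma scaling {a : ℝ} (ha : 0 < a) {R : ℝ} (hR : 0 < R) :
    ∫⁻ w in Metric.ball (0 : ℂ) R, ‖w‖ₑ ^ a = (ENNReal.ofReal R) ^ (a + 2) * J a := by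
  have h0 := Measure.map_addHaar_smul (volume : Measure ℂ) hR.ne'
  set F : ℂ → ENNReal := (Metric.ball (0 : ℂ) R).indicator (fun w => ‖w‖ₑ ^ a) with hF
  have hFm : Measurable F := by
    apply Measurable.indicator _ Metric.isOpen_ball.measurableSet
    fun_prop
  have h1 : ∫⁻ w, F w ∂(Measure.map (R • ·) (volume : Measure ℂ)) = ∫⁻ u : ℂ, F (R • u) := by
    rw [lintegral_map hFm (measurable_const_smul R)]
  rw [h0, lintegral_smul_measure] at h1
  have h2 : ∀ u : ℂ, F (R • u) = (ENNReal.ofReal R) ^ a *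
      (Metric.ball (0 : ℂ) 1).indicator (fun w => ‖w‖ₑ ^ a) u := by
    intro u
    have hn : ‖R • u‖ = R * ‖u‖ := by
      rw [norm_smul, Real.norm_eq_abs, abs_of_pos hR]
    have hiff : R • u ∈ Metric.ball (0 : ℂ) R ↔ u ∈ Metric.ball (0 : ℂ) 1 := by
      rw [mem_ball_zero_iff, mem_ball_zero_iff, hn]
      constructor
      · intro h
        by_contra hcon
        push Not at hcon
        nlinarith
      · intro h
        nlinarith
    by_cases hu : u ∈ Metric.ball (0 : ℂ) 1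
    · rw [hF, indicator_of_mem (hiff.mpr hu), indicator_of_mem hu]
      rw [← ofReal_norm, hn, ENNReal.ofReal_mul hR.le, ofReal_norm,
        ENNReal.mul_rpow_of_nonneg _ _ ha.le]
    · rw [hF, indicator_of_notMem (fun h => hu (hiff.mp h)), indicator_of_notMem hu, mul_zero]
  simp_rw [h2] at h1
  rw [lintegral_const_mul _ (by
    apply Measurable.indicator _ Metric.isOpen_ball.measurableSet
    fun_prop), hF, lintegral_indicator Metric.isOpen_ball.measurableSet,
    lintegral_indicator Metric.isOpen_ball.measurableSet] at h1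
  have h3 : ENNReal.ofReal |(R ^ Module.finrank ℝ ℂ)⁻¹| = ((ENNReal.ofReal R) ^ (2 : ℝ))⁻¹ := by
    rw [Complex.finrank_real_complex, abs_of_pos (by positivity),
      ENNReal.ofReal_inv_of_pos (by positivity), ENNReal.ofReal_pow hR.le]
    congr 1
    exact (ENNReal.rpow_natCast _ 2).symm
  have hR0 : ENNReal.ofReal R ≠ 0 := by
    rw [Ne, ENNReal.ofReal_eq_zero]
    linarith
  have hRt : ENNReal.ofReal R ≠ ⊤ := ENNReal.ofReal_ne_top
  have h4 : (ENNReal.ofReal R) ^ (2 : ℝ) ≠ 0 := (ENNReal.rpow_pos (pos_iff_ne_zero.mpr hR0) hRt).ne'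
  have h5 : (ENNReal.ofReal R) ^ (2 : ℝ) ≠ ⊤ := ENNReal.rpow_ne_top_of_nonneg (by norm_num) hRt
  rw [h3] at h1
  rw [ENNReal.rpow_add _ _ hR0 hRt, mul_comm ((ENNReal.ofReal R) ^ a), mul_assoc]
  unfold J
  rw [← h1, smul_eq_mul, ← mul_assoc, ENNReal.mul_inv_cancel h4 h5, one_mul]

lemma slice {a : ℝ} (ha : 0 < a) (r : ℝ) :
    ∫⁻ w in {w : ℂ | ‖w‖ ^ 2 < r}, ‖w‖ₑ ^ a = (ENNReal.ofReal r) ^ (a / 2 + 1) * J a := by
  rcases le_or_gt r 0 with hr | hr
  · have h1 : {w : ℂ | ‖w‖ ^ 2 < r} = ∅ := by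
      ext w
      simp only [mem_ofPred_eq, mem_empty_iff_false, iff_false, not_lt]
      have := sq_nonneg ‖w‖
      linarith
    rw [h1, ENNReal.ofReal_of_nonpos hr, ENNReal.zero_rpow_of_pos (by linarith)]
    simp
  · have h1 : {w : ℂ | ‖w‖ ^ 2 < r} = Metric.ball 0 (√r) := by
      ext w
      rw [mem_ball_zero_iff, mem_ofPred_eq, Real.lt_sqrt (norm_nonneg w)]
    rw [h1, scaling ha (Real.sqrt_pos.mpr hr)]
    congr 1
    rw [show a + 2 = 2 * (a / 2 + 1) by ring, ENNReal.rpow_mul]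
    congr 1
    rw [show (2 : ℝ) = ((2 : ℕ) : ℝ) by norm_num, ENNReal.rpow_natCast,
      ← ENNReal.ofReal_pow (Real.sqrt_nonneg r), Real.sq_sqrt hr.le]

/-- The region in product form. -/
def Reg (E : Set ℂ) : Set (ℂ × ℂ) := {q | q.1 ∈ E ∧ ‖q.2‖ ^ 2 < 1 - M (‖q.1‖ ^ 2)}

/-- The vertical slices. -/
def Sl (z : ℂ) : Set ℂ := {w | ‖w‖ ^ 2 < 1 - M (‖z‖ ^ 2)}

lemma Reg_measurable {E : Set ℂ} (hE : MeasurableSet E) : MeasurableSet (Reg E) := by
  have h1 : MeasurableSet {q : ℂ × ℂ | ‖q.2‖ ^ 2 < 1 - M (‖q.1‖ ^ 2)} := by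
    apply measurableSet_lt
    · fun_prop
    · apply Continuous.measurable
      apply Continuous.sub continuous_const
      exact M_contDiff.continuous.comp (by fun_prop)
  exact (measurable_fst hE).inter h1

lemma Sl_measurable (z : ℂ) : MeasurableSet (Sl z) := by
  apply measurableSet_lt <;> fun_prop

lemma N_eq {a : ℝ} (ha : 0 < a) {E : Set ℂ} (hE : MeasurableSet E) :
    ∫⁻ p in Om ∩ Cyl E, ‖p 1‖ₑ ^ a = V (a / 2 + 1) E * J a := by
  have hCyl : MeasurableSet (Cyl E) := (measurable_pi_apply 0) hE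
  set F : ℂ × ℂ → ENNReal := (Reg E).indicator (fun q => ‖q.2‖ₑ ^ a) with hF
  have hS : MeasurableSet (Reg E) := Reg_measurable hE
  have hFm : Measurable F := by
    apply Measurable.indicator _ hS
    fun_prop
  have h1 : ∫⁻ p in Om ∩ Cyl E, ‖p 1‖ₑ ^ a =
      ∫⁻ p : Fin 2 → ℂ, F (MeasurableEquiv.finTwoArrow p) := by
    rw [← lintegral_indicator (Om_open.measurableSet.inter hCyl)]
    congr 1
    funext p
    by_cases hp : p ∈ Om ∩ Cyl E
    · rw [indicator_of_mem hp, hF, indicator_of_mem]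
      · rfl
      · refine ⟨hp.2, ?_⟩
        have h2 : rho p < 0 := hp.1
        unfold rho at h2
        show ‖p 1‖ ^ 2 < 1 - M (‖p 0‖ ^ 2)
        linarith
    · rw [indicator_of_notMem hp, hF, indicator_of_notMem]
      intro h
      apply hp
      refine ⟨?_, h.1⟩
      have h2 : ‖p 1‖ ^ 2 < 1 - M (‖p 0‖ ^ 2) := h.2
      show rho p < 0
      unfold rho
      linarith
  rw [h1, (volume_preserving_finTwoArrow ℂ).lintegral_comp hFm, Measure.volume_eq_prod,
    lintegral_prod _ hFm.aemeasurable]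
  unfold V
  rw [← lintegral_mul_const _ (by
      apply Measurable.pow_const
      apply ENNReal.measurable_ofReal.comp
      apply Continuous.measurable
      apply Continuous.sub continuous_const
      exact M_contDiff.continuous.comp (by fun_prop)), ← lintegral_indicator hE]
  congr 1
  funext z
  by_cases hz : z ∈ E
  · have hsl := slice ha (1 - M (‖z‖ ^ 2))
    change ∫⁻ w in Sl z, ‖w‖ₑ ^ a = _ at hsl
    rw [indicator_of_mem hz, ← hsl, ← lintegral_indicator (Sl_measurable z)]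
    congr 1
    funext w
    by_cases hw : w ∈ Sl z
    · have h5 : (z, w) ∈ Reg E := ⟨hz, hw⟩
      rw [hF, indicator_of_mem h5, indicator_of_mem hw]
    · have h5 : (z, w) ∉ Reg E := fun h => hw h.2
      rw [hF, indicator_of_notMem h5, indicator_of_notMem hw]
  · rw [indicator_of_notMem hz]
    have : ∀ w : ℂ, F (z, w) = 0 := by
      intro w
      have h5 : (z, w) ∉ Reg E := fun h => hz h.1
      rw [hF, indicator_of_notMem h5]
    simp [this]

/-- Open discs in terms of the squared radius. -/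
def D (r : ℝ) : Set ℂ := {z | ‖z‖ ^ 2 < r}

lemma D_eq {r : ℝ} (hr : 0 ≤ r) : D r = Metric.ball 0 (√r) := by
  ext w
  unfold D
  rw [mem_ball_zero_iff, mem_ofPred_eq, Real.lt_sqrt (norm_nonneg w)]

lemma D_measurable (r : ℝ) : MeasurableSet (D r) := by
  apply measurableSet_lt <;> fun_prop

lemma D_volume {r : ℝ} (hr : 0 ≤ r) : volume (D r) = ENNReal.ofReal (π * r) := by
  rw [D_eq hr, Complex.volume_ball, ← ENNReal.ofReal_pow (Real.sqrt_nonneg r), Real.sq_sqrt hr,
    mul_comm, ENNReal.ofReal_mul Real.pi_pos.le]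
  congr 1
  rw [← ENNReal.ofReal_coe_nnreal, NNReal.coe_real_pi]

lemma annulus_volume {r t : ℝ} (hr : 0 ≤ r) (hrt : r ≤ t) :
    volume (D t \ D r) = ENNReal.ofReal (π * (t - r)) := by
  have hsub : D r ⊆ D t := fun z (hz : ‖z‖ ^ 2 < r) => lt_of_lt_of_le hz hrt
  rw [measure_sdiff hsub (D_measurable r).nullMeasurableSet (by rw [D_volume hr]; exact ENNReal.ofReal_ne_top),
    D_volume hr, D_volume (hr.trans hrt), ← ENNReal.ofReal_sub _ (by positivity), mul_sub]

end Pool.Agent.Lib.MP_4d3693_an
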