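import Mathlib
import Pool.Agent.Lib.MP_4d3693_an.Integrals

/-!
Estimates of the weighted areas.
-/

open Real Filter Topology Set MeasureTheory

namespace Pool.Agent.Lib.MP_4d3693_an

lemma X_scale (j : ℕ) : X j = 2 ^ (2 * j) * (2 * X (j + 1)) := by
  rw [X_succ]
  have h1 : (1 / 2 : ℝ) ^ (2 * j + 1) = (1 / 2) * ((2 : ℝ) ^ (2 * j))⁻¹ := by
    rw [pow_succ, one_div, inv_pow]
    ring
  rw [h1]
  have h2 : (2 : ℝ) ^ (2 * j) ≠ 0 := by positivity
  field_simp

/-- Lower bound for `M` on the dyadic pieces of the plateau. -/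
lemma M_dyadic {j l : ℕ} (hl : l ≤ 2 * j) {x : ℝ} (hx : 2 ^ l * (2 * X (j + 1)) ≤ x) :
    S j * (l * log 2) ≤ M x := by
  have hX := X_pos (j + 1)
  have h1 : 2 * X (j + 1) ≤ 2 ^ l * (2 * X (j + 1)) := by
    have : (1 : ℝ) ≤ 2 ^ l := one_le_pow₀ (by norm_num)
    nlinarith
  have h2 : 2 ^ l * (2 * X (j + 1)) ≤ X j := by
    rw [X_scale j]
    have : (2 : ℝ) ^ l ≤ 2 ^ (2 * j) := pow_le_pow_right₀ (by norm_num) hl
    nlinarith
  have h3 := M_plateau h1 h2
  have h4 : 2 ^ l * (2 * X (j + 1)) / (2 * X (j + 1)) = 2 ^ l := by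
    field_simp
  rw [h4, Real.log_pow] at h3
  have h5 := M_mono hx
  have h6 := M_nonneg (show 0 ≤ 2 * X (j + 1) by positivity)
  linarith

lemma M_top_le (j : ℕ) : M (X j) ≤ S j * (2 + 2 * j * log 2) := by
  have hX := X_pos (j + 1)
  have h3 := M_plateau (j := j) (X_succ_le j) le_rfl
  have h4 : X j / (2 * X (j + 1)) = 2 ^ (2 * j) := by
    nth_rewrite 1 [X_scale j]
    field_simp
  rw [h4, Real.log_pow] at h3
  have h5 := M_start j
  push_cast at h3
  linarith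

lemma M_far {j : ℕ} {x : ℝ} (h1 : 4 * X j ≤ x) (h2 : x ≤ 4) : a j * log 2 ≤ M x := by
  have hX := X_pos j
  have h3 := M_outer (j := j) (x := x) (by linarith) h2
  have h4 := M_nonneg hX.le
  have h5 : log 2 ≤ log (x / (2 * X j)) := by
    apply Real.log_le_log (by norm_num)
    rw [le_div_iff₀ (by positivity)]
    linarith
  have h6 := a_pos j
  have h7 : a j * log 2 ≤ a j * log (x / (2 * X j)) := mul_le_mul_of_nonneg_left h5 h6.le
  linarith

lemma up (m : ℝ) {s : ℝ} (hs : 0 ≤ s) :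
    (ENNReal.ofReal (1 - m)) ^ s ≤ ENNReal.ofReal (exp (-(s * m))) := by
  have h1 : (1 : ℝ) - m ≤ exp (-m) := by
    have := Real.add_one_le_exp (-m)
    linarith
  calc (ENNReal.ofReal (1 - m)) ^ s ≤ (ENNReal.ofReal (exp (-m))) ^ s :=
        ENNReal.rpow_le_rpow (ENNReal.ofReal_le_ofReal h1) hs
    _ = ENNReal.ofReal (exp (-(s * m))) := by
        rw [ENNReal.ofReal_rpow_of_pos (exp_pos _), ← Real.exp_mul]
        congr 2
        ring

lemma low {m mu : ℝ} (h0 : 0 ≤ mu) (h1 : mu ≤ 1 / 2) (hm : m ≤ mu) {s : ℝ} (hs : 0 ≤ s) :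
    ENNReal.ofReal (exp (-(s * (mu + 2 * mu ^ 2)))) ≤ (ENNReal.ofReal (1 - m)) ^ s := by
  have h2 : exp (-(mu + 2 * mu ^ 2)) ≤ 1 - mu := by
    have h3 : 1 + mu + 2 * mu ^ 2 ≤ exp (mu + 2 * mu ^ 2) := by
      have := Real.add_one_le_exp (mu + 2 * mu ^ 2)
      linarith
    rw [Real.exp_neg]
    rw [inv_le_comm₀ (exp_pos _) (by linarith)]
    refine le_trans ?_ h3
    rw [inv_le_comm₀ (by linarith) (by positivity)]
    rw [inv_le_iff_one_le_mul₀ (by positivity)]
    nlinarith [sq_nonneg mu, mul_nonneg (sq_nonneg mu) (by linarith : (0 : ℝ) ≤ 1 - 2 * mu)]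
  calc ENNReal.ofReal (exp (-(s * (mu + 2 * mu ^ 2))))
      = (ENNReal.ofReal (exp (-(mu + 2 * mu ^ 2)))) ^ s := by
        rw [ENNReal.ofReal_rpow_of_pos (exp_pos _), ← Real.exp_mul]
        congr 2
        ring
    _ ≤ (ENNReal.ofReal (1 - m)) ^ s :=
        ENNReal.rpow_le_rpow (ENNReal.ofReal_le_ofReal (h2.trans (by linarith))) hs

/-- The good scales. -/
def Good (j : ℕ) : Prop := 1 ≤ j ∧ S j * (2 + 2 * j * log 2) ^ 2 ≤ 1 / 4

lemma S_le_pow (j : ℕ) : S j ≤ 4 * (1 / 2) ^ j := by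
  have h1 := S_le j
  have h2 := a_add_le 0 (j + 1)
  rw [zero_add] at h2
  have h3 : a 0 = 4 := by simp [a]
  rw [h3, pow_succ] at h2
  linarith

lemma good_eventually : ∀ᶠ j in atTop, Good j := by
  have h1 : Tendsto (fun j : ℕ => 4 * (1 / 2 : ℝ) ^ j * (2 + 2 * j * log 2) ^ 2) atTop (𝓝 0) := by
    have h2 : Tendsto (fun j : ℕ => ((j : ℝ)) ^ 2 * (1 / 2 : ℝ) ^ j) atTop (𝓝 0) :=
      tendsto_pow_const_mul_const_pow_of_lt_one 2 (by norm_num) (by norm_num)
    have h3 : Tendsto (fun j : ℕ => ((j : ℝ)) ^ 1 * (1 / 2 : ℝ) ^ j) atTop (𝓝 0) :=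
      tendsto_pow_const_mul_const_pow_of_lt_one 1 (by norm_num) (by norm_num)
    have h4 : Tendsto (fun j : ℕ => (1 / 2 : ℝ) ^ j) atTop (𝓝 0) :=
      tendsto_pow_atTop_nhds_zero_of_lt_one (by norm_num) (by norm_num)
    have h5 := ((h2.const_mul (16 * (log 2) ^ 2)).add (h3.const_mul (32 * log 2))).add
      (h4.const_mul 16)
    simp only [mul_zero, add_zero] at h5
    apply h5.congr
    intro j
    ring
  have h6 := (tendsto_order.mp h1).2 (1 / 4) (by norm_num)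
  filter_upwards [h6, eventually_ge_atTop 1] with j hj h1j
  refine ⟨h1j, ?_⟩
  refine le_trans ?_ hj.le
  exact mul_le_mul_of_nonneg_right (S_le_pow j) (sq_nonneg _)

/-- The exponent. -/
noncomputable def nn (j : ℕ) : ℕ := ⌈1 / S j⌉₊

lemma nn_ge (j : ℕ) : 1 ≤ nn j * S j := by
  have h1 : 1 / S j ≤ nn j := Nat.le_ceil _
  rwa [div_le_iff₀ (S_pos j)] at h1

lemma nn_le (j : ℕ) : nn j * S j ≤ 1 + S j := by
  have hS := S_pos j
  have h1 : (nn j : ℝ) < 1 / S j + 1 := Nat.ceil_lt_add_one (by positivity)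
  have h2 : (nn j : ℝ) * S j < (1 / S j + 1) * S j := mul_lt_mul_of_pos_right h1 hS
  have h3 : (1 / S j + 1) * S j = 1 + S j := by field_simp
  linarith

lemma log_two_bounds : 1 / 2 ≤ log 2 ∧ log 2 ≤ 1 :=
  ⟨by linarith [Real.log_two_gt_d9], by linarith [Real.log_two_lt_d9]⟩

lemma good_small {j : ℕ} (hj : Good j) :
    S j ≤ 1 / 16 ∧ S j * (2 + 2 * j * log 2) ≤ 1 / 8 := by
  obtain ⟨h1, h2⟩ := hj
  have hS := S_pos j
  have hl := log_two_bounds.1
  have hL : 0 ≤ 2 * (j : ℝ) * log 2 := by positivity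
  have h4 : 4 ≤ (2 + 2 * (j : ℝ) * log 2) ^ 2 := by nlinarith
  have h5 : S j * 4 ≤ S j * (2 + 2 * (j : ℝ) * log 2) ^ 2 := mul_le_mul_of_nonneg_left h4 hS.le
  have h6 : 2 * (2 + 2 * (j : ℝ) * log 2) ≤ (2 + 2 * (j : ℝ) * log 2) ^ 2 := by nlinarith
  have h7 : S j * (2 * (2 + 2 * (j : ℝ) * log 2)) ≤ S j * (2 + 2 * (j : ℝ) * log 2) ^ 2 :=
    mul_le_mul_of_nonneg_left h6 hS.le
  constructor
  · linarith
  · linarith

/-- Pointwise bound inside the plateau. -/
lemma inner_bound (j l : ℕ) (hl : l ≤ 2 * j) {z : ℂ} (hz : z ∈ D (2 ^ l * (2 * X (j + 1)))) :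
    (ENNReal.ofReal (1 - M (‖z‖ ^ 2))) ^ (nn j : ℝ) ≤
      ∑ i ∈ Finset.range (l + 1), (D (2 ^ i * (2 * X (j + 1)))).indicator
        (fun _ => ENNReal.ofReal (2 * (1 / 2) ^ i)) z := by
  induction l with
  | zero =>
    rw [zero_add, Finset.sum_range_one, indicator_of_mem hz]
    have h1 := up (M (‖z‖ ^ 2)) (Nat.cast_nonneg (nn j))
    refine h1.trans (ENNReal.ofReal_le_ofReal ?_)
    have h2 : 0 ≤ (nn j : ℝ) * M (‖z‖ ^ 2) :=
      mul_nonneg (Nat.cast_nonneg _) (M_nonneg (by positivity))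
    have h3 : exp (-((nn j : ℝ) * M (‖z‖ ^ 2))) ≤ 1 := by
      rw [Real.exp_le_one_iff]
      linarith
    linarith
  | succ l ih =>
    rw [Finset.sum_range_succ]
    by_cases hz' : z ∈ D (2 ^ l * (2 * X (j + 1)))
    · exact (ih (by omega) hz').trans le_self_add
    · refine le_trans ?_ le_add_self
      rw [indicator_of_mem hz]
      have hz'' : 2 ^ l * (2 * X (j + 1)) ≤ ‖z‖ ^ 2 := by
        unfold D at hz'
        rw [mem_ofPred_eq] at hz'
        exact not_lt.mp hz'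
      have h1 := up (M (‖z‖ ^ 2)) (Nat.cast_nonneg (nn j))
      refine h1.trans (ENNReal.ofReal_le_ofReal ?_)
      have h2 := M_dyadic (show l ≤ 2 * j by omega) hz''
      have h3 := nn_ge j
      have h4 : (l : ℝ) * log 2 ≤ (nn j : ℝ) * M (‖z‖ ^ 2) := by
        have h5 : (nn j : ℝ) * (S j * (l * log 2)) ≤ (nn j : ℝ) * M (‖z‖ ^ 2) :=
          mul_le_mul_of_nonneg_left h2 (Nat.cast_nonneg _)
        have h6 : 0 ≤ (l : ℝ) * log 2 := mul_nonneg (Nat.cast_nonneg _) (by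
          linarith [log_two_bounds.1])
        nlinarith
      have h5 : exp (-((nn j : ℝ) * M (‖z‖ ^ 2))) ≤ exp (-((l : ℝ) * log 2)) := by
        apply Real.exp_le_exp.mpr
        linarith
      have h6 : exp (-((l : ℝ) * log 2)) = (1 / 2) ^ l := by
        rw [Real.exp_neg, mul_comm, Real.exp_mul, Real.exp_log (by norm_num), Real.rpow_natCast,
          one_div, inv_pow]
      rw [h6] at h5
      have h7 : 2 * (1 / 2 : ℝ) ^ (l + 1) = (1 / 2) ^ l := by ring
      rw [h7]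
      exact h5

/-- Pointwise bound everywhere. -/
lemma point_bound (j : ℕ) (hj : 1 ≤ j) (z : ℂ) :
    (ENNReal.ofReal (1 - M (‖z‖ ^ 2))) ^ (nn j : ℝ) ≤
      (∑ i ∈ Finset.range (2 * j + 1), (D (2 ^ i * (2 * X (j + 1)))).indicator
        (fun _ => ENNReal.ofReal (2 * (1 / 2) ^ i)) z) +
      (D (4 * X j)).indicator (fun _ => ENNReal.ofReal ((1 / 2) ^ (2 * j))) z +
      (D 3).indicator (fun _ => ENNReal.ofReal (X (j + 1))) z := by
  have hnn : (0 : ℝ) ≤ nn j := Nat.cast_nonneg _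
  have hS := S_pos j
  have hn1 := nn_ge j
  have hn0 : (0 : ℝ) < nn j := by
    by_contra hcon
    push Not at hcon
    nlinarith
  by_cases h1 : z ∈ D (2 ^ (2 * j) * (2 * X (j + 1)))
  · refine (inner_bound j (2 * j) le_rfl h1).trans ?_
    rw [add_assoc]
    exact le_self_add
  have h1' : 2 ^ (2 * j) * (2 * X (j + 1)) ≤ ‖z‖ ^ 2 := by
    unfold D at h1
    rw [mem_ofPred_eq] at h1
    exact not_lt.mp h1
  by_cases h2 : z ∈ D (4 * X j)
  · refine le_trans ?_ (le_add_right (le_add_self))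
    rw [indicator_of_mem h2]
    refine (up (M (‖z‖ ^ 2)) hnn).trans (ENNReal.ofReal_le_ofReal ?_)
    have h3 := M_dyadic (le_refl (2 * j)) h1'
    have h4 : ((2 * j : ℕ) : ℝ) * log 2 ≤ (nn j : ℝ) * M (‖z‖ ^ 2) := by
      have h5 : (nn j : ℝ) * (S j * ((2 * j : ℕ) * log 2)) ≤ (nn j : ℝ) * M (‖z‖ ^ 2) :=
        mul_le_mul_of_nonneg_left h3 (Nat.cast_nonneg _)
      have h6 : 0 ≤ ((2 * j : ℕ) : ℝ) * log 2 := mul_nonneg (Nat.cast_nonneg _) (by
        linarith [log_two_bounds.1])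
      nlinarith
    have h5 : exp (-((nn j : ℝ) * M (‖z‖ ^ 2))) ≤ exp (-(((2 * j : ℕ) : ℝ) * log 2)) := by
      apply Real.exp_le_exp.mpr
      linarith
    have h6 : exp (-(((2 * j : ℕ) : ℝ) * log 2)) = (1 / 2) ^ (2 * j) := by
      rw [Real.exp_neg, mul_comm, Real.exp_mul, Real.exp_log (by norm_num), Real.rpow_natCast,
        one_div, inv_pow]
    rw [h6] at h5
    exact h5
  have h2' : 4 * X j ≤ ‖z‖ ^ 2 := by
    unfold D at h2
    rw [mem_ofPred_eq] at h2
    exact not_lt.mp h2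
  by_cases h3 : z ∈ D 3
  · refine le_trans ?_ le_add_self
    rw [indicator_of_mem h3]
    refine (up (M (‖z‖ ^ 2)) hnn).trans (ENNReal.ofReal_le_ofReal ?_)
    have h3' : ‖z‖ ^ 2 < 3 := h3
    have h4 := M_far h2' (by linarith)
    have hX := X_pos (j + 1)
    have haj := a_pos j
    have haj1 := a_pos (j + 1)
    have hlog := log_two_bounds.1
    -- lower bound for the exponent
    have h5 : a j ≤ (nn j : ℝ) * S j * a j := by nlinarith
    have h6 : S j * (1 / X (j + 1)) ≤ a j * (1 / 2) ^ j := by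
      have h7 := S_le j
      have h8 := a_succ_le j
      rw [mul_one_div, div_le_iff₀ hX]
      rw [pow_succ] at h8
      linarith
    have h7 : (2 : ℝ) ≤ 2 ^ j := by
      calc (2 : ℝ) = 2 ^ 1 := by norm_num
        _ ≤ 2 ^ j := pow_le_pow_right₀ (by norm_num) hj
    have h8 : (1 / 2 : ℝ) ^ j ≤ 1 / 2 := by
      calc (1 / 2 : ℝ) ^ j ≤ (1 / 2) ^ 1 := pow_le_pow_of_le_one (by norm_num) (by norm_num) hj
        _ = 1 / 2 := by norm_num
    have h9 : 1 / X (j + 1) ≤ (nn j : ℝ) * M (‖z‖ ^ 2) := by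
      have e1 : S j * (1 / X (j + 1)) ≤ a j * (1 / 2) :=
        h6.trans (mul_le_mul_of_nonneg_left h8 haj.le)
      have e2 : a j * (1 / 2) ≤ M (‖z‖ ^ 2) := by nlinarith
      have e3 : S j * (1 / X (j + 1)) ≤ M (‖z‖ ^ 2) := e1.trans e2
      have e4 : (nn j : ℝ) * (S j * (1 / X (j + 1))) ≤ (nn j : ℝ) * M (‖z‖ ^ 2) :=
        mul_le_mul_of_nonneg_left e3 hnn
      have e5 : 0 < 1 / X (j + 1) := by positivity
      nlinarith
    have h10 : exp (-((nn j : ℝ) * M (‖z‖ ^ 2))) ≤ exp (-(1 / X (j + 1))) := by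
      apply Real.exp_le_exp.mpr
      linarith
    refine h10.trans ?_
    rw [Real.exp_neg, inv_le_comm₀ (exp_pos _) hX]
    have := Real.add_one_le_exp (1 / X (j + 1))
    rw [one_div] at this
    rw [one_div]
    linarith
  · have h3' : 3 ≤ ‖z‖ ^ 2 := by
      unfold D at h3
      rw [mem_ofPred_eq] at h3
      exact not_lt.mp h3
    have h4 := M_mono h3'
    have h5 := M_three
    rw [ENNReal.ofReal_of_nonpos (by linarith), ENNReal.zero_rpow_of_pos hn0]
    exact zero_le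

/-- Upper bound for the full weighted area. -/
lemma V_univ_le (j : ℕ) (hj : 1 ≤ j) :
    V (nn j) univ ≤ ENNReal.ofReal (π * (2 * X (j + 1)) * (4 * j + 8)) := by
  have hX := X_pos (j + 1)
  have hXj := X_pos j
  have hpi := Real.pi_pos
  unfold V
  rw [Measure.restrict_univ]
  refine (lintegral_mono (point_bound j hj)).trans ?_
  rw [lintegral_add_right _ (measurable_const.indicator (D_measurable _)),
    lintegral_add_right _ (measurable_const.indicator (D_measurable _)),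
    lintegral_finsetSum _ (fun i _ => measurable_const.indicator (D_measurable _)),
    lintegral_indicator_const (D_measurable _), lintegral_indicator_const (D_measurable _),
    D_volume (by positivity), D_volume (by norm_num)]
  have h1 : ∀ i ∈ Finset.range (2 * j + 1), ∫⁻ z : ℂ, (D (2 ^ i * (2 * X (j + 1)))).indicator
      (fun _ => ENNReal.ofReal (2 * (1 / 2) ^ i)) z =
      ENNReal.ofReal (2 * (π * (2 * X (j + 1)))) := by
    intro i _
    rw [lintegral_indicator_const (D_measurable _), D_volume (by positivity),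
      ← ENNReal.ofReal_mul (by positivity)]
    congr 1
    have : (1 / 2 : ℝ) ^ i * 2 ^ i = 1 := by
      rw [← mul_pow]; norm_num
    calc 2 * (1 / 2 : ℝ) ^ i * (π * (2 ^ i * (2 * X (j + 1)))) =
        2 * ((1 / 2 : ℝ) ^ i * 2 ^ i) * (π * (2 * X (j + 1))) := by ring
      _ = _ := by rw [this]; ring
  rw [Finset.sum_congr rfl h1, Finset.sum_const, Finset.card_range, nsmul_eq_mul,
    ← ENNReal.ofReal_natCast, ← ENNReal.ofReal_mul (by positivity),
    ← ENNReal.ofReal_mul (by positivity), ← ENNReal.ofReal_mul (by positivity),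
    ← ENNReal.ofReal_add (by positivity) (by positivity),
    ← ENNReal.ofReal_add (by positivity) (by positivity)]
  apply ENNReal.ofReal_le_ofReal
  have h2 : (1 / 2 : ℝ) ^ (2 * j) * (π * (4 * X j)) = 4 * (π * (2 * X (j + 1))) := by
    rw [X_scale j]
    have : (1 / 2 : ℝ) ^ (2 * j) * 2 ^ (2 * j) = 1 := by
      rw [← mul_pow]; norm_num
    calc (1 / 2 : ℝ) ^ (2 * j) * (π * (4 * (2 ^ (2 * j) * (2 * X (j + 1))))) =
        ((1 / 2 : ℝ) ^ (2 * j) * 2 ^ (2 * j)) * (4 * (π * (2 * X (j + 1)))) := by ring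
      _ = _ := by rw [this]; ring
  rw [h2]
  push_cast
  have h3 : 0 < π * X (j + 1) := by positivity
  nlinarith

end Pool.Agent.Lib.MP_4d3693_an
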