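import Mathlib
import Pool.Agent.Lib.MP_4d3693_an.Estimates

/-!
Estimates of the weighted areas over the outer ring.
-/

open Real Filter Topology Set MeasureTheory

namespace Pool.Agent.Lib.MP_4d3693_an

/-- The outer ring. -/
def Ring (j : ℕ) : Set ℂ := D (X j) \ D (X j / 2)

lemma Ring_measurable (j : ℕ) : MeasurableSet (Ring j) := (D_measurable _).diff (D_measurable _)

lemma Ring_volume (j : ℕ) : volume (Ring j) = ENNReal.ofReal (π * (X j / 2)) := by
  have := X_pos j
  unfold Ring
  rw [annulus_volume (by linarith) (by linarith)]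
  congr 1
  ring

lemma X_exp (j : ℕ) : X j = exp (2 * j * log 2) * (2 * X (j + 1)) := by
  rw [X_scale j]
  congr 1
  rw [show 2 * (j : ℝ) * log 2 = log 2 * ((2 * j : ℕ) : ℝ) by push_cast; ring,
    Real.exp_mul, Real.exp_log (by norm_num), Real.rpow_natCast]

lemma V_ring_ge {j : ℕ} (hj : Good j) :
    ENNReal.ofReal (π * X (j + 1) * exp (-3)) ≤ V (nn j) (Ring j) := by
  obtain ⟨hs1, hs2⟩ := good_small hj
  obtain ⟨hj1, hj2⟩ := hj
  have hS := S_pos j
  have hX := X_pos (j + 1)
  have hl := log_two_bounds.1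
  set L : ℝ := 2 + 2 * j * log 2 with hL
  have hL0 : 2 ≤ L := by
    have : 0 ≤ 2 * (j : ℝ) * log 2 := by positivity
    linarith
  have hn1 := nn_ge j
  have hn2 := nn_le j
  have hn0 : (0 : ℝ) ≤ nn j := Nat.cast_nonneg _
  have key : (nn j : ℝ) * (S j * L + 2 * (S j * L) ^ 2) ≤ L + 1 := by
    have e1 : (nn j : ℝ) * (S j * L + 2 * (S j * L) ^ 2) =
        (nn j * S j) * (L + 2 * (S j * L ^ 2)) := by ring
    rw [e1]
    have e2 : 0 ≤ L + 2 * (S j * L ^ 2) := by positivity
    have e3 : (nn j * S j) * (L + 2 * (S j * L ^ 2)) ≤ (1 + S j) * (L + 2 * (S j * L ^ 2)) :=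
      mul_le_mul_of_nonneg_right hn2 e2
    have e4 : (1 + S j) * (L + 2 * (S j * L ^ 2)) ≤ (1 + S j) * (L + 2 * (1 / 4)) := by
      apply mul_le_mul_of_nonneg_left _ (by linarith)
      linarith
    have e5 : (1 + S j) * (L + 2 * (1 / 4)) = L + S j * L + 1 / 2 + S j / 2 := by ring
    linarith
  unfold V
  calc ENNReal.ofReal (π * X (j + 1) * exp (-3))
      = ENNReal.ofReal (exp (-(L + 1))) * volume (Ring j) := by
        rw [Ring_volume, ← ENNReal.ofReal_mul (exp_pos _).le]
        congr 1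
        rw [X_exp j]
        have e6 : exp (-(L + 1)) = exp (-3) * exp (-(2 * j * log 2)) := by
          rw [← Real.exp_add]
          congr 1
          rw [hL]
          ring
        have e7 : exp (-(2 * j * log 2)) * exp (2 * j * log 2) = 1 := by
          rw [← Real.exp_add]
          simp
        rw [e6]
        calc π * X (j + 1) * exp (-3)
            = π * X (j + 1) * exp (-3) * (exp (-(2 * j * log 2)) * exp (2 * j * log 2)) := by
              rw [e7, mul_one]
          _ = _ := by ring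
    _ = ∫⁻ _z in Ring j, ENNReal.ofReal (exp (-(L + 1))) := by
        rw [setLIntegral_const]
    _ ≤ ∫⁻ z in Ring j, (ENNReal.ofReal (1 - M (‖z‖ ^ 2))) ^ (nn j : ℝ) := by
        apply setLIntegral_mono' (Ring_measurable j)
        intro z hz
        have hz1 : ‖z‖ ^ 2 < X j := hz.1
        have e8 : M (‖z‖ ^ 2) ≤ S j * L := (M_mono hz1.le).trans (M_top_le j)
        refine le_trans (ENNReal.ofReal_le_ofReal ?_)
          (low (by positivity) (by linarith) e8 hn0)
        apply Real.exp_le_exp.mpr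
        linarith

lemma V_ring_le {j : ℕ} (hj : Good j) {p : ℝ} (hp : 2 ≤ p) :
    V (p * ((nn j : ℝ) - 1) / 2 + 1) (Ring j) ≤
      ENNReal.ofReal (π * (X j / 2) * exp (-(p / 2 * (2 * j * log 2 - 2)))) := by
  obtain ⟨hs1, hs2⟩ := good_small hj
  obtain ⟨hj1, hj2⟩ := hj
  have hS := S_pos j
  have hX := X_pos (j + 1)
  have hXj := X_pos j
  have hl := log_two_bounds.1
  have hl1 := log_two_bounds.2
  have hn1 := nn_ge j
  have hn2 := nn_le j
  have hj1' : (1 : ℝ) ≤ j := by exact_mod_cast hj1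
  have hn0 : (1 : ℝ) ≤ nn j := by nlinarith
  have hs0 : 0 ≤ p * ((nn j : ℝ) - 1) / 2 + 1 := by
    have : 0 ≤ p * ((nn j : ℝ) - 1) := mul_nonneg (by linarith) (by linarith)
    linarith
  unfold V
  calc ∫⁻ z in Ring j, (ENNReal.ofReal (1 - M (‖z‖ ^ 2))) ^ (p * ((nn j : ℝ) - 1) / 2 + 1)
      ≤ ∫⁻ _z in Ring j, ENNReal.ofReal (exp (-(p / 2 * (2 * j * log 2 - 2)))) := by
        apply setLIntegral_mono' (Ring_measurable j)
        intro z hz
        have hz2 : X j / 2 ≤ ‖z‖ ^ 2 := by
          have := hz.2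
          unfold D at this
          rw [mem_ofPred_eq] at this
          exact not_lt.mp this
        obtain ⟨i, rfl⟩ : ∃ i, j = i + 1 := ⟨j - 1, by omega⟩
        have e1 : 2 ^ (2 * i + 1) * (2 * X (i + 1 + 1)) ≤ ‖z‖ ^ 2 := by
          refine le_trans (le_of_eq ?_) hz2
          rw [X_scale (i + 1)]
          ring
        have e2 := M_dyadic (j := i + 1) (show 2 * i + 1 ≤ 2 * (i + 1) by omega) e1
        refine (up _ hs0).trans (ENNReal.ofReal_le_ofReal ?_)
        apply Real.exp_le_exp.mpr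
        apply neg_le_neg
        push_cast at e2 hj1' ⊢
        set W : ℝ := (2 * (i : ℝ) + 1) * log 2 with hW
        have hi0 : (0 : ℝ) ≤ i := Nat.cast_nonneg i
        have hW0 : 0 ≤ W := by positivity
        have e3 : (p * ((nn (i + 1) : ℝ) - 1) / 2 + 1) * (S (i + 1) * W) ≤
            (p * ((nn (i + 1) : ℝ) - 1) / 2 + 1) * M (‖z‖ ^ 2) :=
          mul_le_mul_of_nonneg_left e2 hs0
        have e4 : (p * ((nn (i + 1) : ℝ) - 1) / 2 + 1) * (S (i + 1) * W) =
            p / 2 * ((nn (i + 1) : ℝ) * S (i + 1)) * W - (p / 2 - 1) * (S (i + 1) * W) := by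
          ring
        have e5 : p / 2 * 1 * W ≤ p / 2 * ((nn (i + 1) : ℝ) * S (i + 1)) * W := by
          apply mul_le_mul_of_nonneg_right _ hW0
          apply mul_le_mul_of_nonneg_left hn1 (by linarith)
        have e6 : S (i + 1) * W ≤ 1 / 8 := by
          refine le_trans ?_ hs2
          apply mul_le_mul_of_nonneg_left _ hS.le
          rw [hW]
          push_cast
          nlinarith
        have e7 : (p / 2 - 1) * (S (i + 1) * W) ≤ (p / 2 - 1) * (1 / 8) :=
          mul_le_mul_of_nonneg_left e6 (by linarith)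
        have e8 : 2 * ((i : ℝ) + 1) * log 2 = W + log 2 := by
          rw [hW]; ring
        rw [e8]
        nlinarith
    _ = ENNReal.ofReal (π * (X j / 2) * exp (-(p / 2 * (2 * j * log 2 - 2)))) := by
        rw [setLIntegral_const, Ring_volume, ← ENNReal.ofReal_mul (exp_pos _).le]
        congr 1
        ring

lemma V_univ_ge {j : ℕ} (hj : Good j) {p : ℝ} (hp : 2 ≤ p) :
    ENNReal.ofReal (π * (2 * X (j + 1)) * exp (-(2 * p))) ≤
      V (p * ((nn j : ℝ) - 1) / 2 + 1) univ := by
  obtain ⟨hs1, hs2⟩ := good_small hj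
  obtain ⟨hj1, hj2⟩ := hj
  have hS := S_pos j
  have hX := X_pos (j + 1)
  have hn1 := nn_ge j
  have hn2 := nn_le j
  have hn0 : (1 : ℝ) ≤ nn j := by nlinarith
  have hs0 : 0 ≤ p * ((nn j : ℝ) - 1) / 2 + 1 := by
    have : 0 ≤ p * ((nn j : ℝ) - 1) := mul_nonneg (by linarith) (by linarith)
    linarith
  have hsub : V (p * ((nn j : ℝ) - 1) / 2 + 1) (D (2 * X (j + 1))) ≤
      V (p * ((nn j : ℝ) - 1) / 2 + 1) univ := by
    unfold V
    exact lintegral_mono_set (subset_univ _)
  refine le_trans ?_ hsub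
  have key : (p * ((nn j : ℝ) - 1) / 2 + 1) * (2 * S j + 2 * (2 * S j) ^ 2) ≤ 2 * p := by
    have e1 : (p * ((nn j : ℝ) - 1) / 2 + 1) * (2 * S j + 2 * (2 * S j) ^ 2) =
        (p / 2 * ((nn j : ℝ) * S j) - (p / 2 - 1) * S j) * (2 + 8 * S j) := by ring
    rw [e1]
    have e2 : 0 ≤ (p / 2 - 1) * S j := mul_nonneg (by linarith) hS.le
    have e3 : p / 2 * ((nn j : ℝ) * S j) ≤ p / 2 * (1 + S j) :=
      mul_le_mul_of_nonneg_left hn2 (by linarith)
    have e4 : p / 2 * (1 + S j) ≤ p / 2 * (17 / 16) :=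
      mul_le_mul_of_nonneg_left (by linarith) (by linarith)
    have e5 : (p / 2 * ((nn j : ℝ) * S j) - (p / 2 - 1) * S j) * (2 + 8 * S j) ≤
        (p / 2 * (17 / 16)) * (2 + 8 * S j) :=
      mul_le_mul_of_nonneg_right (by linarith) (by positivity)
    have e6 : (p / 2 * (17 / 16)) * (2 + 8 * S j) ≤ (p / 2 * (17 / 16)) * (5 / 2) := by
      apply mul_le_mul_of_nonneg_left (by linarith) (by positivity)
    linarith
  unfold V
  calc ENNReal.ofReal (π * (2 * X (j + 1)) * exp (-(2 * p)))
      = ∫⁻ _z in D (2 * X (j + 1)), ENNReal.ofReal (exp (-(2 * p))) := by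
        rw [setLIntegral_const, D_volume (by positivity), ← ENNReal.ofReal_mul (exp_pos _).le]
        congr 1
        ring
    _ ≤ ∫⁻ z in D (2 * X (j + 1)),
          (ENNReal.ofReal (1 - M (‖z‖ ^ 2))) ^ (p * ((nn j : ℝ) - 1) / 2 + 1) := by
        apply setLIntegral_mono' (D_measurable _)
        intro z hz
        have hz1 : ‖z‖ ^ 2 < 2 * X (j + 1) := hz
        have e8 : M (‖z‖ ^ 2) ≤ 2 * S j := (M_mono hz1.le).trans (M_start j)
        refine le_trans (ENNReal.ofReal_le_ofReal ?_)
          (low (by positivity) (by linarith) e8 hs0)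
        apply Real.exp_le_exp.mpr
        linarith

/-- The lower bound for the coefficient. -/
noncomputable def gam (j : ℕ) : ℝ := exp (-3) / (2 * (4 * j + 8))

lemma gam_pos (j : ℕ) : 0 < gam j := by unfold gam; positivity

lemma final_real {p : ℝ} (hp : 2 < p) {C : ℝ} (hC : 0 < C) : ∀ᶠ j : ℕ in atTop,
    C ^ p * (π * (X j / 2) * exp (-(p / 2 * (2 * j * log 2 - 2)))) <
      gam j ^ p * (π * (2 * X (j + 1)) * exp (-(2 * p))) := by
  have hl := log_two_bounds.1
  set b : ℝ := (p - 2) * log 2 / 8 with hb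
  have hb0 : 0 < b := by
    have : 0 < (p - 2) * log 2 := mul_pos (by linarith) (by linarith)
    positivity
  have h1 : Tendsto (fun x : ℝ => x ^ p * exp (-b * x)) atTop (𝓝 0) :=
    tendsto_rpow_mul_exp_neg_mul_atTop_nhds_zero p b hb0
  have h2 : Tendsto (fun j : ℕ => 2 * (4 * (j : ℝ) + 8)) atTop atTop := by
    apply Tendsto.const_mul_atTop (by norm_num)
    apply tendsto_atTop_add_const_right
    exact tendsto_natCast_atTop_atTop.const_mul_atTop (by norm_num)
  have h3 := h1.comp h2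
  have h4 := h3.const_mul (C ^ p * exp (16 * b) * exp (6 * p))
  rw [mul_zero] at h4
  have h5 := (tendsto_order.mp h4).2 1 (by norm_num)
  filter_upwards [h5] with j hj
  have hX := X_pos (j + 1)
  have hpi := Real.pi_pos
  set Y : ℝ := 2 * (4 * (j : ℝ) + 8) with hY
  have hY0 : 0 < Y := by positivity
  have hYp : 0 < Y ^ p := Real.rpow_pos_of_pos hY0 p
  have hg : gam j ^ p = exp (-(3 * p)) / Y ^ p := by
    unfold gam
    rw [← hY, Real.div_rpow (exp_pos _).le hY0.le, ← Real.exp_mul]
    congr 2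
    ring
  rw [hg, X_exp j]
  simp only [Function.comp] at hj
  rw [← hY] at hj
  have e1 : exp (-b * Y) = exp (-(16 * b)) * exp (-((p - 2) * (j * log 2))) := by
    rw [← Real.exp_add]
    congr 1
    rw [hY, hb]
    ring
  rw [e1] at hj
  have e2 : exp (16 * b) * exp (-(16 * b)) = 1 := by
    rw [← Real.exp_add]; simp
  have e3 : C ^ p * exp (6 * p) * Y ^ p * exp (-((p - 2) * (j * log 2))) < 1 := by
    calc C ^ p * exp (6 * p) * Y ^ p * exp (-((p - 2) * (j * log 2)))
        = C ^ p * exp (6 * p) * Y ^ p * exp (-((p - 2) * (j * log 2))) *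
          (exp (16 * b) * exp (-(16 * b))) := by rw [e2, mul_one]
      _ = C ^ p * exp (16 * b) * exp (6 * p) *
          (Y ^ p * (exp (-(16 * b)) * exp (-((p - 2) * (j * log 2))))) := by ring
      _ < 1 := hj
  have e4 : exp (2 * j * log 2) * exp (-(p / 2 * (2 * j * log 2 - 2))) =
      exp p * exp (-((p - 2) * (j * log 2))) := by
    rw [← Real.exp_add, ← Real.exp_add]
    congr 1
    ring
  have hE : 0 < exp (-((p - 2) * (j * log 2))) := exp_pos _
  have hCp : 0 < C ^ p := Real.rpow_pos_of_pos hC p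
  calc C ^ p * (π * (exp (2 * j * log 2) * (2 * X (j + 1)) / 2) *
        exp (-(p / 2 * (2 * j * log 2 - 2))))
      = C ^ p * (exp (2 * j * log 2) * exp (-(p / 2 * (2 * j * log 2 - 2)))) *
        (π * X (j + 1)) := by ring
    _ = (C ^ p * exp (6 * p) * Y ^ p * exp (-((p - 2) * (j * log 2)))) *
        (exp (-(5 * p)) / Y ^ p * (π * X (j + 1))) := by
        rw [e4]
        have e5 : exp p = exp (6 * p) * exp (-(5 * p)) := by
          rw [← Real.exp_add]; congr 1; ring
        rw [e5]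
        field_simp
    _ < 1 * (exp (-(5 * p)) / Y ^ p * (π * X (j + 1))) := by
        apply mul_lt_mul_of_pos_right e3
        positivity
    _ ≤ exp (-(3 * p)) / Y ^ p * (π * (2 * X (j + 1)) * exp (-(2 * p))) := by
        have e6 : exp (-(5 * p)) = exp (-(3 * p)) * exp (-(2 * p)) := by
          rw [← Real.exp_add]; congr 1; ring
        rw [e6]
        have e7 : 0 < exp (-(3 * p)) * exp (-(2 * p)) / Y ^ p * (π * X (j + 1)) := by positivity
        have e8 : exp (-(3 * p)) / Y ^ p * (π * (2 * X (j + 1)) * exp (-(2 * p))) =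
            2 * (exp (-(3 * p)) * exp (-(2 * p)) / Y ^ p * (π * X (j + 1))) := by ring
        rw [e8]
        linarith

end Pool.Agent.Lib.MP_4d3693_an
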