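import Mathlib
import Pool.Agent.Lib.MP_4d3693_an.Domain

/-!
Rotation averages on the domain and the pairing of `Psi(|z|) w^k` with holomorphic functions.
-/

open Real Filter Topology Set MeasureTheory

namespace Pool.Agent.Lib.MP_4d3693_an

/-- Coordinatewise rotation. -/
noncomputable def rot (u : Fin 2 → ℝ) (p : Fin 2 → ℂ) : Fin 2 → ℂ :=
  fun k => Complex.exp (u k * Complex.I) * p k

lemma rot_norm (u : Fin 2 → ℝ) (p : Fin 2 → ℂ) (k : Fin 2) : ‖rot u p k‖ = ‖p k‖ := by
  unfold rot
  rw [norm_mul, Complex.norm_exp_ofReal_mul_I, one_mul]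

lemma rot_rho (u : Fin 2 → ℝ) (p : Fin 2 → ℂ) : rho (rot u p) = rho p := by
  unfold rho
  rw [rot_norm, rot_norm]

lemma rot_preimage (u : Fin 2 → ℝ) : rot u ⁻¹' Om = Om := by
  ext p
  show rho (rot u p) < 0 ↔ rho p < 0
  rw [rot_rho]

lemma rot_mp (u : Fin 2 → ℝ) : MeasurePreserving (rot u) volume volume := by
  have h : ∀ k : Fin 2, MeasurePreserving (fun z : ℂ => Complex.exp (u k * Complex.I) * z)
      volume volume := by
    intro k
    have h1 := (rotation (Circle.exp (u k))).measurePreserving
    have h2 : (fun z : ℂ => Complex.exp (u k * Complex.I) * z) =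
        ⇑(rotation (Circle.exp (u k))) := by
      funext z
      rw [rotation_apply, Circle.coe_exp]
    rw [h2]
    exact h1
  exact volume_preserving_pi h

lemma Om_measurable : MeasurableSet Om := Om_open.measurableSet

lemma rot_mp_Om (u : Fin 2 → ℝ) :
    MeasurePreserving (rot u) (volume.restrict Om) (volume.restrict Om) := by
  have := (rot_mp u).restrict_preimage Om_measurable
  rwa [rot_preimage] at this

lemma Om_volume_lt : volume Om < ⊤ := Om_bounded.measure_lt_top

instance : IsFiniteMeasure (volume.restrict Om) := ⟨by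
  rw [Measure.restrict_apply_univ]; exact Om_volume_lt⟩

/-- The product map used in the averaging. -/
lemma skew (v : Fin 2 → ℝ) :
    MeasurePreserving (fun q : ℝ × (Fin 2 → ℂ) => (q.1, rot (q.1 • v) q.2))
      ((volume.restrict (Ioc 0 (2 * π))).prod (volume.restrict Om))
      ((volume.restrict (Ioc 0 (2 * π))).prod (volume.restrict Om)) := by
  apply MeasurePreserving.skew_product (f := id) (MeasurePreserving.id _)
    (g := fun t p => rot (t • v) p)
  · apply Continuous.measurable
    unfold rot Function.uncurry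
    simp only [Pi.smul_apply, smul_eq_mul]
    fun_prop
  · filter_upwards with t
    exact (rot_mp_Om _).map_eq

lemma average {G : (Fin 2 → ℂ) → ℂ} (hG : Integrable G (volume.restrict Om)) (v : Fin 2 → ℝ) :
    Integrable (fun p => ∫ t in Ioc 0 (2 * π), G (rot (t • v) p)) (volume.restrict Om) ∧
      ∫ p in Om, (∫ t in Ioc 0 (2 * π), G (rot (t • v) p)) = (2 * π : ℝ) * ∫ p in Om, G p := by
  have h1 : Integrable (fun q : ℝ × (Fin 2 → ℂ) => G q.2)
      ((volume.restrict (Ioc 0 (2 * π))).prod (volume.restrict Om)) :=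
    hG.comp_snd _
  have h2 : Integrable (fun q : ℝ × (Fin 2 → ℂ) => G (rot (q.1 • v) q.2))
      ((volume.restrict (Ioc 0 (2 * π))).prod (volume.restrict Om)) :=
    (skew v).integrable_comp_of_integrable h1
  refine ⟨h2.integral_prod_right, ?_⟩
  rw [← integral_prod_symm _ h2]
  have h3 : ∫ q : ℝ × (Fin 2 → ℂ), G (rot (q.1 • v) q.2)
      ∂((volume.restrict (Ioc 0 (2 * π))).prod (volume.restrict Om)) =
      ∫ q : ℝ × (Fin 2 → ℂ), G q.2
      ∂((volume.restrict (Ioc 0 (2 * π))).prod (volume.restrict Om)) := by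
    have h4 := integral_map (μ := (volume.restrict (Ioc 0 (2 * π))).prod (volume.restrict Om))
      (φ := fun q : ℝ × (Fin 2 → ℂ) => (q.1, rot (q.1 • v) q.2)) (skew v).aemeasurable
      (f := fun q => G q.2) (by rw [(skew v).map_eq]; exact h1.aestronglyMeasurable)
    rw [(skew v).map_eq] at h4
    exact h4.symm
  rw [h3, integral_fun_snd]
  simp [Measure.real, Real.pi_pos.le]

/-- Mean value property in rotated form. -/
lemma mean_value {F : ℂ → ℂ} {z : ℂ} (hF : DifferentiableOn ℂ F (Metric.closedBall 0 ‖z‖)) :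
    ∫ t in Ioc 0 (2 * π), F (Complex.exp (t * Complex.I) * z) = (2 * π : ℝ) * F 0 := by
  have h1 : circleAverage F 0 ‖z‖ = F 0 := by
    apply DiffContOnCl.circleAverage
    rw [abs_of_nonneg (norm_nonneg z)]
    exact (hF.mono Metric.closure_ball_subset_closedBall).diffContOnCl
  rw [circleAverage_eq_integral_add (Complex.arg z)] at h1
  rw [← h1, ← intervalIntegral.integral_of_le (by positivity)]
  have h2 : ∀ t : ℝ, circleMap 0 ‖z‖ (t + Complex.arg z) = Complex.exp (t * Complex.I) * z := by
    intro t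
    rw [circleMap_zero]
    conv_rhs => rw [← Complex.norm_mul_exp_arg_mul_I z]
    push_cast
    rw [add_mul, Complex.exp_add]
    ring
  simp_rw [h2]
  rw [Complex.real_smul, ← mul_assoc, ← Complex.ofReal_mul, mul_inv_cancel₀ (by positivity)]
  simp

/-- Cauchy formula in rotated form. -/
lemma cauchy_rot {F : ℂ → ℂ} {w : ℂ} (hw : w ≠ 0) (k : ℕ)
    (hF : DifferentiableOn ℂ F (Metric.closedBall 0 ‖w‖)) :
    ∫ t in Ioc 0 (2 * π), F (Complex.exp (t * Complex.I) * w) /
        (Complex.exp (t * Complex.I) * w) ^ k =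
      (2 * π : ℝ) * (iteratedDeriv k F 0 / k.factorial) := by
  have hw0 : 0 < ‖w‖ := norm_pos_iff.mpr hw
  have h0 := hF.circleIntegral_one_div_sub_center_pow_smul hw0 k
  have h1 : circleAverage (fun z => F z / z ^ k) 0 ‖w‖ = iteratedDeriv k F 0 / k.factorial := by
    rw [circleAverage_eq_circleIntegral hw0.ne']
    have h2 : (∮ z in C(0, ‖w‖), (z - 0)⁻¹ • (F z / z ^ k)) =
        ∮ z in C(0, ‖w‖), (1 / (z - 0) ^ (k + 1)) • F z := by
      apply circleIntegral.integral_congr hw0.le
      intro z hz
      have hz0 : z ≠ 0 := by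
        intro h
        rw [h] at hz
        simp at hz
        exact hw0.ne hz
      simp only [sub_zero, smul_eq_mul]
      field_simp
      ring
    rw [h2, h0, smul_eq_mul, smul_eq_mul]
    have := Complex.two_pi_I_ne_zero
    field_simp
  rw [circleAverage_eq_integral_add (Complex.arg w)] at h1
  rw [← h1, ← intervalIntegral.integral_of_le (by positivity)]
  have h2 : ∀ t : ℝ, circleMap 0 ‖w‖ (t + Complex.arg w) = Complex.exp (t * Complex.I) * w := by
    intro t
    rw [circleMap_zero]
    conv_rhs => rw [← Complex.norm_mul_exp_arg_mul_I w]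
    push_cast
    rw [add_mul, Complex.exp_add]
    ring
  simp_rw [h2]
  rw [Complex.real_smul, ← mul_assoc, ← Complex.ofReal_mul, mul_inv_cancel₀ (by positivity)]
  simp

end Pool.Agent.Lib.MP_4d3693_an
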