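import Mathlib
import Pool.Agent.Lib.MP_4d3693_an.Rot

/-!
The pairing of `Psi(|z|) w^k` with holomorphic functions.
-/

open Real Filter Topology Set MeasureTheory

namespace Pool.Agent.Lib.MP_4d3693_an

lemma rot_fst (t : ℝ) (p : Fin 2 → ℂ) :
    rot (t • ![1, 0]) p = ![Complex.exp (t * Complex.I) * p 0, p 1] := by
  funext k
  fin_cases k <;> simp [rot]

lemma rot_snd (t : ℝ) (p : Fin 2 → ℂ) :
    rot (t • ![0, 1]) p = ![p 0, Complex.exp (t * Complex.I) * p 1] := by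
  funext k
  fin_cases k <;> simp [rot]

lemma mem_of_le {p : Fin 2 → ℂ} (hp : p ∈ Om) {z w : ℂ} (hz : ‖z‖ ≤ ‖p 0‖) (hw : ‖w‖ ≤ ‖p 1‖) :
    ![z, w] ∈ Om := by
  have hp' : rho p < 0 := hp
  show rho ![z, w] < 0
  unfold rho at *
  simp only [Matrix.cons_val_zero, Matrix.cons_val_one]
  have h1 : ‖z‖ ^ 2 ≤ ‖p 0‖ ^ 2 := by gcongr
  have h2 : ‖w‖ ^ 2 ≤ ‖p 1‖ ^ 2 := by gcongr
  have h3 := M_mono h1
  linarith

lemma diff_fst {h : (Fin 2 → ℂ) → ℂ} (hh : DifferentiableOn ℂ h Om) {p : Fin 2 → ℂ}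
    (hp : p ∈ Om) :
    DifferentiableOn ℂ (fun z => h ![z, p 1]) (Metric.closedBall 0 ‖p 0‖) := by
  apply hh.comp
  · rw [differentiableOn_pi]
    intro k
    fin_cases k
    · exact differentiableOn_id
    · exact differentiableOn_const _
  · intro z hz
    rw [mem_closedBall_zero_iff] at hz
    exact mem_of_le hp hz le_rfl

lemma diff_snd {h : (Fin 2 → ℂ) → ℂ} (hh : DifferentiableOn ℂ h Om) {p : Fin 2 → ℂ}
    (hp : p ∈ Om) :
    DifferentiableOn ℂ (fun w => h ![0, w]) (Metric.closedBall 0 ‖p 1‖) := by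
  apply hh.comp
  · rw [differentiableOn_pi]
    intro k
    fin_cases k
    · exact differentiableOn_const _
    · exact differentiableOn_id
  · intro w hw
    rw [mem_closedBall_zero_iff] at hw
    exact mem_of_le hp (by simp) hw

lemma avg_fst {h : (Fin 2 → ℂ) → ℂ} (hh : DifferentiableOn ℂ h Om) {p : Fin 2 → ℂ}
    (hp : p ∈ Om) (c : ℂ) :
    ∫ t in Ioc 0 (2 * π), c * starRingEnd ℂ (h ![Complex.exp (t * Complex.I) * p 0, p 1]) =
      (2 * π : ℝ) * (c * starRingEnd ℂ (h ![0, p 1])) := by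
  have h1 := mean_value (diff_fst hh hp)
  rw [integral_const_mul, integral_conj, h1, map_mul, Complex.conj_ofReal]
  ring

lemma avg_snd {h : (Fin 2 → ℂ) → ℂ} (hh : DifferentiableOn ℂ h Om) {p : Fin 2 → ℂ}
    (hp : p ∈ Om) (c : ℂ) {k : ℕ} (hk : k ≠ 0) :
    ∫ t in Ioc 0 (2 * π), c * (Complex.exp (t * Complex.I) * p 1) ^ k *
        starRingEnd ℂ (h ![0, Complex.exp (t * Complex.I) * p 1]) =
      (2 * π : ℝ) * (starRingEnd ℂ (iteratedDeriv k (fun w => h ![0, w]) 0 / k.factorial) *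
        (c * ((‖p 1‖ ^ (2 * k) : ℝ) : ℂ))) := by
  rcases eq_or_ne (p 1) 0 with h0 | h0
  · simp [h0, hk]
  · have h1 := cauchy_rot h0 k (diff_snd hh hp)
    have h2 : ∀ t : ℝ, c * (Complex.exp (t * Complex.I) * p 1) ^ k *
        starRingEnd ℂ (h ![0, Complex.exp (t * Complex.I) * p 1]) =
        (c * ((‖p 1‖ ^ (2 * k) : ℝ) : ℂ)) *
          starRingEnd ℂ (h ![0, Complex.exp (t * Complex.I) * p 1] /
            (Complex.exp (t * Complex.I) * p 1) ^ k) := by
      intro t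
      set W : ℂ := Complex.exp (t * Complex.I) * p 1 with hW
      have hW0 : W ≠ 0 := mul_ne_zero (Complex.exp_ne_zero _) h0
      have hWn : ‖W‖ = ‖p 1‖ := by
        rw [hW, norm_mul, Complex.norm_exp_ofReal_mul_I, one_mul]
      have h3 : ((‖p 1‖ ^ (2 * k) : ℝ) : ℂ) = W ^ k * (starRingEnd ℂ W) ^ k := by
        rw [← hWn, ← mul_pow, Complex.mul_conj, Complex.normSq_eq_norm_sq, pow_mul]
        push_cast
        rfl
      have h4 : (starRingEnd ℂ W) ^ k ≠ 0 := by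
        apply pow_ne_zero
        rwa [Ne, map_eq_zero]
      rw [h3, map_div₀, map_pow]
      field_simp
    simp_rw [h2]
    rw [integral_const_mul, integral_conj, h1, map_mul, Complex.conj_ofReal]
    ring

lemma pairing {Psi : (Fin 2 → ℂ) → ℂ} (hrot : ∀ u p, Psi (rot u p) = Psi p)
    (hmeas : Measurable Psi) {B : ℝ} (hB : ∀ p, ‖Psi p‖ ≤ B)
    {h : (Fin 2 → ℂ) → ℂ} (hh : DifferentiableOn ℂ h Om)
    (hL : MemLp h 2 (volume.restrict Om)) {k : ℕ} (hk : k ≠ 0) :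
    ∫ p in Om, Psi p * (p 1) ^ k * starRingEnd ℂ (h p) =
      starRingEnd ℂ (iteratedDeriv k (fun w => h ![0, w]) 0 / k.factorial) *
        ∫ p in Om, Psi p * ((‖p 1‖ ^ (2 * k) : ℝ) : ℂ) := by
  have hB0 : 0 ≤ B := (norm_nonneg _).trans (hB 0)
  have hpi : ((2 * π : ℝ) : ℂ) ≠ 0 := by
    rw [Ne, Complex.ofReal_eq_zero]
    positivity
  have hG0 : Integrable (fun p : Fin 2 → ℂ => Psi p * (p 1) ^ k * starRingEnd ℂ (h p))
      (volume.restrict Om) := by
    have h1 : Integrable (fun p => starRingEnd ℂ (h p)) (volume.restrict Om) := by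
      have h2 : Integrable h (volume.restrict Om) := hL.integrable (by norm_num)
      exact (LinearIsometryEquiv.integrable_comp_iff Complex.conjLIE).mpr h2
    apply h1.bdd_mul (c := B)
    · exact (hmeas.mul ((measurable_pi_apply 1).pow_const k)).aestronglyMeasurable
    · filter_upwards [ae_restrict_mem Om_measurable] with p hp
      rw [norm_mul, norm_pow]
      have h3 : ‖p 1‖ ≤ 1 := by
        have := (lt_three_of_rho (le_of_lt hp)).2
        nlinarith [norm_nonneg (p 1)]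
      have h4 : ‖p 1‖ ^ k ≤ 1 := pow_le_one₀ (norm_nonneg _) h3
      calc ‖Psi p‖ * ‖p 1‖ ^ k ≤ B * 1 := mul_le_mul (hB p) h4 (by positivity) hB0
        _ = B := mul_one B
  obtain ⟨hI1, hE1⟩ := average hG0 ![1, 0]
  have hA1 : ∀ p ∈ Om, ∫ t in Ioc 0 (2 * π), Psi (rot (t • ![1, 0]) p) *
      (rot (t • ![1, 0]) p 1) ^ k * starRingEnd ℂ (h (rot (t • ![1, 0]) p)) =
      (2 * π : ℝ) * (Psi p * (p 1) ^ k * starRingEnd ℂ (h ![0, p 1])) := by
    intro p hp
    rw [← avg_fst hh hp]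
    congr 1
    funext t
    rw [hrot, rot_fst]
    rfl
  have hG1 : Integrable (fun p : Fin 2 → ℂ => Psi p * (p 1) ^ k * starRingEnd ℂ (h ![0, p 1]))
      (volume.restrict Om) := by
    have h5 : Integrable (fun p : Fin 2 → ℂ => ((2 * π : ℝ) : ℂ) *
        (Psi p * (p 1) ^ k * starRingEnd ℂ (h ![0, p 1]))) (volume.restrict Om) := by
      apply hI1.congr
      filter_upwards [ae_restrict_mem Om_measurable] with p hp
      exact hA1 p hp
    have h6 := h5.const_mul (((2 * π : ℝ) : ℂ)⁻¹)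
    apply h6.congr
    filter_upwards with p
    rw [← mul_assoc, inv_mul_cancel₀ hpi, one_mul]
  obtain ⟨hI2, hE2⟩ := average hG1 ![0, 1]
  have hA2 : ∀ p ∈ Om, ∫ t in Ioc 0 (2 * π), Psi (rot (t • ![0, 1]) p) *
      (rot (t • ![0, 1]) p 1) ^ k * starRingEnd ℂ (h ![0, rot (t • ![0, 1]) p 1]) =
      (2 * π : ℝ) * (starRingEnd ℂ (iteratedDeriv k (fun w => h ![0, w]) 0 / k.factorial) *
        (Psi p * ((‖p 1‖ ^ (2 * k) : ℝ) : ℂ))) := by
    intro p hp
    rw [← avg_snd hh hp _ hk]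
    congr 1
    funext t
    rw [hrot, rot_snd]
    rfl
  rw [setIntegral_congr_fun Om_measurable hA1, integral_const_mul] at hE1
  rw [setIntegral_congr_fun Om_measurable hA2, integral_const_mul, integral_const_mul] at hE2
  rw [← mul_left_cancel₀ hpi hE1, ← mul_left_cancel₀ hpi hE2]

end Pool.Agent.Lib.MP_4d3693_an
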