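import Mathlib
import Pool.Agent.Lib.MP_4d3693_an.Pairing
import Pool.Agent.Lib.MP_4d3693_an.Estimates2

/-!
Failure of the `L^p` bound for every `p > 2`.
-/

open Real Filter Topology Set MeasureTheory

namespace Pool.Agent.Lib.MP_4d3693_an

lemma Cyl_measurable {E : Set ℂ} (hE : MeasurableSet E) : MeasurableSet (Cyl E) :=
  (measurable_pi_apply 0) hE

lemma Cyl_univ : Cyl univ = univ := by
  ext p
  simp [Cyl]

/-- The test function. -/
noncomputable def fF (j : ℕ) : (Fin 2 → ℂ) → ℂ :=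
  (Cyl (Ring j)).indicator (fun p => (p 1) ^ (nn j - 1))

/-- The coefficient. -/
noncomputable def cc (j : ℕ) : ℝ := (V (nn j) (Ring j)).toReal / (V (nn j) univ).toReal

/-- The projection of the test function. -/
noncomputable def gF (j : ℕ) : (Fin 2 → ℂ) → ℂ := fun p => (cc j : ℂ) * (p 1) ^ (nn j - 1)

lemma nn_large {j : ℕ} (hj : Good j) : 16 ≤ nn j := by
  have h1 := nn_ge j
  have h2 := (good_small hj).1
  have h3 := S_pos j
  have h4 : (16 : ℝ) ≤ nn j := by nlinarith
  exact_mod_cast h4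

lemma nn_cast {j : ℕ} (hj : Good j) : ((nn j - 1 : ℕ) : ℝ) = (nn j : ℝ) - 1 := by
  have := nn_large hj
  rw [Nat.cast_sub (by omega), Nat.cast_one]

lemma V_mono (s : ℝ) (E : Set ℂ) : V s E ≤ V s univ := by
  unfold V
  exact lintegral_mono_set (subset_univ _)

lemma V_univ_lt_top {j : ℕ} (hj : Good j) : V (nn j) univ < ⊤ :=
  (V_univ_le j hj.1).trans_lt ENNReal.ofReal_lt_top

lemma V_univ_pos {j : ℕ} (hj : Good j) : 0 < V (nn j) univ := by
  refine lt_of_lt_of_le ?_ ((V_ring_ge hj).trans (V_mono _ _))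
  rw [ENNReal.ofReal_pos]
  have := X_pos (j + 1)
  positivity

lemma gam_le {j : ℕ} (hj : Good j) : gam j ≤ cc j := by
  have hX := X_pos (j + 1)
  have hpi := Real.pi_pos
  have h1 : π * X (j + 1) * exp (-3) ≤ (V (nn j) (Ring j)).toReal := by
    rw [← ENNReal.ofReal_le_iff_le_toReal ((V_mono _ _).trans_lt (V_univ_lt_top hj)).ne]
    exact V_ring_ge hj
  have h2 : (V (nn j) univ).toReal ≤ π * (2 * X (j + 1)) * (4 * j + 8) :=
    ENNReal.toReal_le_of_le_ofReal (by positivity) (V_univ_le j hj.1)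
  have h3 : 0 < (V (nn j) univ).toReal :=
    ENNReal.toReal_pos (V_univ_pos hj).ne' (V_univ_lt_top hj).ne
  unfold cc gam
  calc exp (-3) / (2 * (4 * (j : ℝ) + 8))
      = (π * X (j + 1) * exp (-3)) / (π * (2 * X (j + 1)) * (4 * j + 8)) := by
        field_simp
    _ ≤ (V (nn j) (Ring j)).toReal / (V (nn j) univ).toReal :=
        div_le_div₀ ENNReal.toReal_nonneg h1 h3 h2

/-- Real moments over cylinders. -/
lemma moment {j : ℕ} (hj : Good j) {E : Set ℂ} (hE : MeasurableSet E) :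
    ∫ p in Om ∩ Cyl E, ‖p 1‖ ^ (2 * (nn j - 1)) =
      (V (nn j) E).toReal * (J (2 * ((nn j : ℝ) - 1))).toReal := by
  have hn := nn_large hj
  have hc := nn_cast hj
  have hn' : (16 : ℝ) ≤ nn j := by exact_mod_cast hn
  have h1 := N_eq (a := 2 * ((nn j : ℝ) - 1)) (by linarith) hE
  rw [show 2 * ((nn j : ℝ) - 1) / 2 + 1 = nn j by ring] at h1
  rw [← ENNReal.toReal_mul, ← h1, integral_eq_lintegral_of_nonneg_ae]
  · congr 1
    apply lintegral_congr
    intro p
    rw [← ofReal_norm, ENNReal.ofReal_rpow_of_nonneg (norm_nonneg _) (by linarith)]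
    congr 1
    rw [← Real.rpow_natCast]
    congr 1
    push_cast
    rw [hc]
  · filter_upwards with p
    positivity
  · apply Continuous.aestronglyMeasurable
    fun_prop

/-- The multiplier with vanishing moment. -/
noncomputable def Psi (j : ℕ) (p : Fin 2 → ℂ) : ℂ :=
  (Cyl (Ring j)).indicator (fun _ => 1) p - (cc j : ℂ)

lemma D_norm (r : ℝ) {z w : ℂ} (h : ‖z‖ = ‖w‖) : z ∈ D r ↔ w ∈ D r := by
  unfold D
  rw [mem_ofPred_eq, mem_ofPred_eq, h]

lemma Psi_rot (j : ℕ) (u : Fin 2 → ℝ) (p : Fin 2 → ℂ) : Psi j (rot u p) = Psi j p := by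
  unfold Psi
  congr 1
  have h : rot u p ∈ Cyl (Ring j) ↔ p ∈ Cyl (Ring j) := by
    have hn := rot_norm u p 0
    have h1 := D_norm (X j) hn
    have h2 := D_norm (X j / 2) hn
    constructor
    · intro hp
      exact ⟨h1.mp hp.1, fun h => hp.2 (h2.mpr h)⟩
    · intro hp
      exact ⟨h1.mpr hp.1, fun h => hp.2 (h2.mp h)⟩
  by_cases hp : p ∈ Cyl (Ring j)
  · rw [indicator_of_mem hp, indicator_of_mem (h.mpr hp)]
  · rw [indicator_of_notMem hp, indicator_of_notMem (fun h' => hp (h.mp h'))]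

lemma Psi_measurable (j : ℕ) : Measurable (Psi j) := by
  unfold Psi
  exact (measurable_const.indicator (Cyl_measurable (Ring_measurable j))).sub measurable_const

lemma Psi_bound (j : ℕ) (p : Fin 2 → ℂ) : ‖Psi j p‖ ≤ 1 + ‖(cc j : ℂ)‖ := by
  unfold Psi
  refine (norm_sub_le _ _).trans ?_
  gcongr
  refine (norm_indicator_le_norm_self _ _).trans ?_
  simp

lemma mom_integrable (k : ℕ) :
    IntegrableOn (fun p : Fin 2 → ℂ => ((‖p 1‖ ^ (2 * k) : ℝ) : ℂ)) Om := by
  apply Measure.integrableOn_of_bounded (M := 1) Om_volume_lt.ne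
  · apply Continuous.aestronglyMeasurable
    fun_prop
  · filter_upwards [ae_restrict_mem Om_measurable] with p hp
    have h3 : ‖p 1‖ ≤ 1 := by
      have := (lt_three_of_rho (le_of_lt hp)).2
      nlinarith [norm_nonneg (p 1)]
    rw [Complex.norm_real, Real.norm_eq_abs, abs_of_nonneg (by positivity)]
    exact pow_le_one₀ (norm_nonneg _) h3

lemma Psi_moment {j : ℕ} (hj : Good j) :
    ∫ p in Om, Psi j p * ((‖p 1‖ ^ (2 * (nn j - 1)) : ℝ) : ℂ) = 0 := by
  have h1 := moment hj (Ring_measurable j)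
  have h2 := moment hj MeasurableSet.univ
  rw [Cyl_univ, inter_univ] at h2
  have hI := mom_integrable (nn j - 1)
  have h3 : ∀ p, Psi j p * ((‖p 1‖ ^ (2 * (nn j - 1)) : ℝ) : ℂ) =
      (Cyl (Ring j)).indicator (fun p : Fin 2 → ℂ => ((‖p 1‖ ^ (2 * (nn j - 1)) : ℝ) : ℂ)) p -
        (cc j : ℂ) * ((‖p 1‖ ^ (2 * (nn j - 1)) : ℝ) : ℂ) := by
    intro p
    unfold Psi
    rw [sub_mul]
    congr 1
    by_cases hp : p ∈ Cyl (Ring j)
    · rw [indicator_of_mem hp, indicator_of_mem hp, one_mul]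
    · rw [indicator_of_notMem hp, indicator_of_notMem hp, zero_mul]
  simp_rw [h3]
  rw [integral_sub (hI.indicator (Cyl_measurable (Ring_measurable j))) (hI.const_mul _),
    integral_const_mul, setIntegral_indicator (Cyl_measurable (Ring_measurable j)),
    integral_complex_ofReal, integral_complex_ofReal, h1, h2, ← Complex.ofReal_mul, ← Complex.ofReal_sub]
  unfold cc
  have h4 : (V (nn j) univ).toReal ≠ 0 :=
    (ENNReal.toReal_pos (V_univ_pos hj).ne' (V_univ_lt_top hj).ne).ne'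
  rw [← mul_assoc, div_mul_cancel₀ _ h4, sub_self, Complex.ofReal_zero]

lemma orth {j : ℕ} (hj : Good j) {h : (Fin 2 → ℂ) → ℂ} (hh : DifferentiableOn ℂ h Om)
    (hL : MemLp h 2 (volume.restrict Om)) :
    ∫ x in Om, (fF j x - gF j x) * starRingEnd ℂ (h x) = 0 := by
  have hk : nn j - 1 ≠ 0 := by
    have := nn_large hj
    omega
  have h1 := pairing (Psi_rot j) (Psi_measurable j) (Psi_bound j) hh hL hk
  rw [Psi_moment hj, mul_zero] at h1
  rw [← h1]
  congr 1
  funext p
  congr 1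
  unfold fF gF Psi
  rw [sub_mul]
  congr 1
  by_cases hp : p ∈ Cyl (Ring j)
  · rw [indicator_of_mem hp, indicator_of_mem hp, one_mul]
  · rw [indicator_of_notMem hp, indicator_of_notMem hp, zero_mul]

lemma fF_measurable (j : ℕ) : Measurable (fF j) := by
  unfold fF
  exact ((measurable_pi_apply 1).pow_const _).indicator (Cyl_measurable (Ring_measurable j))

lemma pow_le_one_Om {p : Fin 2 → ℂ} (hp : p ∈ Om) (k : ℕ) : ‖p 1‖ ^ k ≤ 1 := by
  have h3 : ‖p 1‖ ≤ 1 := by
    have := (lt_three_of_rho (le_of_lt hp)).2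
    nlinarith [norm_nonneg (p 1)]
  exact pow_le_one₀ (norm_nonneg _) h3

lemma fF_memLp (j : ℕ) (q : ENNReal) : MemLp (fF j) q (volume.restrict Om) := by
  apply MemLp.of_bound (fF_measurable j).aestronglyMeasurable 1
  filter_upwards [ae_restrict_mem Om_measurable] with p hp
  unfold fF
  refine (norm_indicator_le_norm_self _ _).trans ?_
  rw [norm_pow]
  exact pow_le_one_Om hp _

lemma gF_diff (j : ℕ) : Differentiable ℂ (gF j) := by
  unfold gF
  apply Differentiable.const_mul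
  apply Differentiable.pow
  exact differentiable_pi.mp differentiable_id 1

lemma gF_memLp (j : ℕ) (q : ENNReal) : MemLp (gF j) q (volume.restrict Om) := by
  apply MemLp.of_bound (gF_diff j).continuous.aestronglyMeasurable ‖(cc j : ℂ)‖
  filter_upwards [ae_restrict_mem Om_measurable] with p hp
  unfold gF
  rw [norm_mul, norm_pow]
  exact mul_le_of_le_one_right (norm_nonneg _) (pow_le_one_Om hp _)

lemma norm_fF {j : ℕ} (hj : Good j) {p : ℝ} (hp : 2 < p) :
    ∫⁻ x in Om, ‖fF j x‖ₑ ^ p =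
      V (p * ((nn j : ℝ) - 1) / 2 + 1) (Ring j) * J (p * ((nn j : ℝ) - 1)) := by
  have hn := nn_large hj
  have hn' : (16 : ℝ) ≤ nn j := by exact_mod_cast hn
  have hpos : 0 < p * ((nn j : ℝ) - 1) := mul_pos (by linarith) (by linarith)
  rw [← N_eq hpos (Ring_measurable j), inter_comm,
    ← Measure.restrict_restrict (Cyl_measurable (Ring_measurable j)),
    ← lintegral_indicator (Cyl_measurable (Ring_measurable j))]
  apply lintegral_congr
  intro x
  unfold fF
  by_cases hx : x ∈ Cyl (Ring j)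
  · rw [indicator_of_mem hx, indicator_of_mem hx, enorm_pow, ← ENNReal.rpow_natCast,
      ← ENNReal.rpow_mul, nn_cast hj, mul_comm]
  · rw [indicator_of_notMem hx, indicator_of_notMem hx, enorm_zero,
      ENNReal.zero_rpow_of_pos (by linarith)]

lemma norm_gF {j : ℕ} (hj : Good j) {p : ℝ} (hp : 2 < p) :
    ∫⁻ x in Om, ‖gF j x‖ₑ ^ p = (ENNReal.ofReal (cc j)) ^ p *
      (V (p * ((nn j : ℝ) - 1) / 2 + 1) univ * J (p * ((nn j : ℝ) - 1))) := by
  have hn := nn_large hj
  have hn' : (16 : ℝ) ≤ nn j := by exact_mod_cast hn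
  have hpos : 0 < p * ((nn j : ℝ) - 1) := mul_pos (by linarith) (by linarith)
  have hcc : 0 ≤ cc j := (gam_pos j).le.trans (gam_le hj)
  rw [← N_eq hpos MeasurableSet.univ, Cyl_univ, inter_univ, ← lintegral_const_mul _ (by
    fun_prop)]
  apply lintegral_congr
  intro x
  unfold gF
  rw [enorm_mul, enorm_pow, ENNReal.mul_rpow_of_nonneg _ _ (by linarith), ← ofReal_norm (cc j : ℂ),
    Complex.norm_real, Real.norm_eq_abs, abs_of_nonneg hcc, ← ENNReal.rpow_natCast,
      ← ENNReal.rpow_mul, nn_cast hj, mul_comm ((nn j : ℝ) - 1) p]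

/-- The main failure statement. -/
theorem failure {p : ℝ} (hp : 2 < p) (C : NNReal) :
    ∃ f g : (Fin 2 → ℂ) → ℂ,
      MemLp f 2 (volume.restrict Om) ∧
      MemLp f (ENNReal.ofReal p) (volume.restrict Om) ∧
      DifferentiableOn ℂ g Om ∧
      MemLp g 2 (volume.restrict Om) ∧
      (∀ h : (Fin 2 → ℂ) → ℂ, DifferentiableOn ℂ h Om →
        MemLp h 2 (volume.restrict Om) →
        ∫ x in Om, (f x - g x) * starRingEnd ℂ (h x) = 0) ∧
      ¬ eLpNorm g (ENNReal.ofReal p) (volume.restrict Om)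
        ≤ (C : ENNReal) * eLpNorm f (ENNReal.ofReal p) (volume.restrict Om) := by
  have hC0 : (0 : ℝ) < (C : ℝ) + 1 := by positivity
  obtain ⟨j, hj1, hj⟩ := ((final_real hp hC0).and good_eventually).exists
  refine ⟨fF j, gF j, fF_memLp j _, fF_memLp j _, (gF_diff j).differentiableOn, gF_memLp j _,
    fun h hh hL => orth hj hh hL, ?_⟩
  intro hcon
  have hp0 : 0 < p := by linarith
  have hq0 : ENNReal.ofReal p ≠ 0 := by
    rw [Ne, ENNReal.ofReal_eq_zero]
    linarith
  have hq1 : ENNReal.ofReal p ≠ ⊤ := ENNReal.ofReal_ne_top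
  rw [eLpNorm_eq_lintegral_rpow_enorm_toReal hq0 hq1,
    eLpNorm_eq_lintegral_rpow_enorm_toReal hq0 hq1, ENNReal.toReal_ofReal hp0.le,
    norm_fF hj hp, norm_gF hj hp] at hcon
  have hcon2 := ENNReal.rpow_le_rpow hcon hp0.le
  rw [ENNReal.mul_rpow_of_nonneg _ _ hp0.le, ← ENNReal.rpow_mul, ← ENNReal.rpow_mul,
    one_div, inv_mul_cancel₀ hp0.ne', ENNReal.rpow_one, ENNReal.rpow_one] at hcon2
  have hn' : (16 : ℝ) ≤ nn j := by exact_mod_cast nn_large hj
  have hpos : 0 < p * ((nn j : ℝ) - 1) := mul_pos (by linarith) (by linarith)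
  have hJ0 := (J_pos hpos).ne'
  have hJ1 := (J_lt_top hpos).ne
  rw [← mul_assoc, ← mul_assoc, ENNReal.mul_le_mul_iff_left hJ0 hJ1] at hcon2
  have hg := gam_pos j
  have hX := X_pos (j + 1)
  have hXj := X_pos j
  have hpi := Real.pi_pos
  have h1 : ENNReal.ofReal (gam j ^ p * (π * (2 * X (j + 1)) * exp (-(2 * p)))) ≤
      ENNReal.ofReal (((C : ℝ) + 1) ^ p *
        (π * (X j / 2) * exp (-(p / 2 * (2 * j * log 2 - 2))))) := by
    rw [ENNReal.ofReal_mul (show 0 ≤ gam j ^ p by positivity),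
      ENNReal.ofReal_mul (show 0 ≤ ((C : ℝ) + 1) ^ p by positivity),
      ← ENNReal.ofReal_rpow_of_pos hg, ← ENNReal.ofReal_rpow_of_pos hC0]
    calc ENNReal.ofReal (gam j) ^ p * ENNReal.ofReal (π * (2 * X (j + 1)) * exp (-(2 * p)))
        ≤ ENNReal.ofReal (cc j) ^ p * V (p * ((nn j : ℝ) - 1) / 2 + 1) univ := by
          gcongr
          · exact gam_le hj
          · exact V_univ_ge hj hp.le
      _ ≤ (C : ENNReal) ^ p * V (p * ((nn j : ℝ) - 1) / 2 + 1) (Ring j) := hcon2
      _ ≤ ENNReal.ofReal ((C : ℝ) + 1) ^ p *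
          ENNReal.ofReal (π * (X j / 2) * exp (-(p / 2 * (2 * j * log 2 - 2)))) := by
          gcongr
          · rw [← ENNReal.ofReal_coe_nnreal]
            apply ENNReal.ofReal_le_ofReal
            linarith
          · exact V_ring_le hj hp.le
  rw [ENNReal.ofReal_le_ofReal_iff (by positivity)] at h1
  linarith

end Pool.Agent.Lib.MP_4d3693_an
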